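import Mathlib

namespace Pool.Agent.Results.MP_e87155_co.RainbowBelowSat

open SimpleGraph

/-- `G` is `H`-saturated: `G` contains no copy of `H`, but adding any missing edge creates one. -/
def IsSaturated {W V : Type} (H : SimpleGraph W) (G : SimpleGraph V) : Prop :=
  H.Free G ∧ ∀ u v, u ≠ v → ¬ G.Adj u v → H ⊑ (G ⊔ edge u v)

/-- `φ` is a proper edge colouring of `G`: two different edges of `G` sharing a vertex receive
different colours (only the values of `φ` on the edges of `G` matter). -/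
def IsProper {V : Type} (G : SimpleGraph V) (φ : Sym2 V → ℕ) : Prop :=
  ∀ e ∈ G.edgeSet, ∀ f ∈ G.edgeSet, e ≠ f → (∃ v, v ∈ e ∧ v ∈ f) → φ e ≠ φ f

/-- Under the edge colouring `φ` the graph `G` has a rainbow copy of `H`: a copy all of whose
edges have distinct colours. -/
def HasRainbow {W V : Type} (H : SimpleGraph W) (G : SimpleGraph V) (φ : Sym2 V → ℕ) : Prop :=
  ∃ f : H.Copy G, Set.InjOn (fun e : Sym2 W => φ (e.map f)) H.edgeSet

/-- `G` is rainbow `H`-saturated: some proper edge colouring of `G` has no rainbow copy of `H`, and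
for every missing edge `uv` every proper edge colouring of `G + uv` has a rainbow copy of `H`. -/
def IsRainbowSaturated {W V : Type} (H : SimpleGraph W) (G : SimpleGraph V) : Prop :=
  (∃ φ : Sym2 V → ℕ, IsProper G φ ∧ ¬ HasRainbow H G φ) ∧
  ∀ u v, u ≠ v → ¬ G.Adj u v → ∀ φ : Sym2 V → ℕ,
    IsProper (G ⊔ edge u v) φ → HasRainbow H (G ⊔ edge u v) φ

/-- The saturation number: least number of edges of an `H`-saturated graph on `n` vertices. -/
noncomputable def sat {W : Type} (n : ℕ) (H : SimpleGraph W) : ℕ∞ :=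
  sInf {m | ∃ G : SimpleGraph (Fin n), IsSaturated H G ∧ G.edgeSet.encard = m}

/-- The rainbow saturation number: least number of edges of a rainbow `H`-saturated graph on `n`
vertices. -/
noncomputable def satStar {W : Type} (n : ℕ) (H : SimpleGraph W) : ℕ∞ :=
  sInf {m | ∃ G : SimpleGraph (Fin n), IsRainbowSaturated H G ∧ G.edgeSet.encard = m}

/-- The disjoint union of the path `0 - 1 - 2 - 3` on four vertices and the single edge `4 - 5`. -/
def PK : SimpleGraph (Fin 6) := SimpleGraph.fromEdgeSet {s(0, 1), s(1, 2), s(2, 3), s(4, 5)}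

lemma PK_edgeSet : PK.edgeSet = {s(0, 1), s(1, 2), s(2, 3), s(4, 5)} := by
  rw [PK, edgeSet_fromEdgeSet]
  ext e
  simp only [Set.mem_sdiff, Set.mem_insert_iff, Set.mem_singleton_iff]
  constructor
  · exact fun h => h.1
  · intro h
    refine ⟨h, ?_⟩
    rcases h with rfl | rfl | rfl | rfl <;> simp

variable {V : Type}

lemma inj_of_nodup {p0 p1 p2 p3 p4 p5 : V} (h : [p0, p1, p2, p3, p4, p5].Nodup) :
    Function.Injective ![p0, p1, p2, p3, p4, p5] := by
  rw [← List.nodup_ofFn]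
  exact h

/-- build a copy -/
def mkCopy {G : SimpleGraph V} (p : Fin 6 → V) (hp : Function.Injective p)
    (h01 : G.Adj (p 0) (p 1)) (h12 : G.Adj (p 1) (p 2)) (h23 : G.Adj (p 2) (p 3))
    (h45 : G.Adj (p 4) (p 5)) : PK.Copy G where
  toHom := ⟨p, by
    intro i j hij
    have : s(i, j) ∈ PK.edgeSet := hij
    rw [PK_edgeSet] at this
    simp only [Set.mem_insert_iff, Set.mem_singleton_iff, Sym2.eq_iff] at this
    rcases this with (⟨rfl, rfl⟩ | ⟨rfl, rfl⟩) | (⟨rfl, rfl⟩ | ⟨rfl, rfl⟩) |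
      (⟨rfl, rfl⟩ | ⟨rfl, rfl⟩) | (⟨rfl, rfl⟩ | ⟨rfl, rfl⟩)
    · exact h01
    · exact h01.symm
    · exact h12
    · exact h12.symm
    · exact h23
    · exact h23.symm
    · exact h45
    · exact h45.symm⟩
  injective' := hp

lemma contains_of {G : SimpleGraph V} {p0 p1 p2 p3 p4 p5 : V}
    (h : [p0, p1, p2, p3, p4, p5].Nodup)
    (h01 : G.Adj p0 p1) (h12 : G.Adj p1 p2) (h23 : G.Adj p2 p3) (h45 : G.Adj p4 p5) :
    PK ⊑ G :=
  ⟨mkCopy ![p0, p1, p2, p3, p4, p5] (inj_of_nodup h) h01 h12 h23 h45⟩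

lemma of_contains {G : SimpleGraph V} (h : PK ⊑ G) : ∃ p : Fin 6 → V, Function.Injective p ∧
    G.Adj (p 0) (p 1) ∧ G.Adj (p 1) (p 2) ∧ G.Adj (p 2) (p 3) ∧ G.Adj (p 4) (p 5) := by
  obtain ⟨f⟩ := h
  have hadj : ∀ i j, s(i, j) ∈ PK.edgeSet → G.Adj (f i) (f j) := by
    intro i j hij
    exact f.toHom.map_adj hij
  rw [PK_edgeSet] at hadj
  refine ⟨f, f.injective, hadj 0 1 (by simp), hadj 1 2 (by simp), hadj 2 3 (by simp),
    hadj 4 5 (by simp)⟩

/-- if there is no rainbow copy then two of the four colours coincide -/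
lemma no_rainbow {G : SimpleGraph V} {φ : Sym2 V → ℕ} (hno : ¬ HasRainbow PK G φ)
    {p0 p1 p2 p3 p4 p5 : V} (h : [p0, p1, p2, p3, p4, p5].Nodup)
    (h01 : G.Adj p0 p1) (h12 : G.Adj p1 p2) (h23 : G.Adj p2 p3) (h45 : G.Adj p4 p5) :
    φ s(p0, p1) = φ s(p1, p2) ∨ φ s(p0, p1) = φ s(p2, p3) ∨ φ s(p0, p1) = φ s(p4, p5) ∨
    φ s(p1, p2) = φ s(p2, p3) ∨ φ s(p1, p2) = φ s(p4, p5) ∨ φ s(p2, p3) = φ s(p4, p5) := by
  by_contra hcon
  push Not at hcon
  obtain ⟨c1, c2, c3, c4, c5, c6⟩ := hcon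
  apply hno
  refine ⟨mkCopy ![p0, p1, p2, p3, p4, p5] (inj_of_nodup h) h01 h12 h23 h45, ?_⟩
  rw [PK_edgeSet]
  have e1 : Sym2.map (mkCopy ![p0, p1, p2, p3, p4, p5] (inj_of_nodup h) h01 h12 h23 h45)
    s(0, 1) = s(p0, p1) := rfl
  have e2 : Sym2.map (mkCopy ![p0, p1, p2, p3, p4, p5] (inj_of_nodup h) h01 h12 h23 h45)
    s(1, 2) = s(p1, p2) := rfl
  have e3 : Sym2.map (mkCopy ![p0, p1, p2, p3, p4, p5] (inj_of_nodup h) h01 h12 h23 h45)
    s(2, 3) = s(p2, p3) := rfl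
  have e4 : Sym2.map (mkCopy ![p0, p1, p2, p3, p4, p5] (inj_of_nodup h) h01 h12 h23 h45)
    s(4, 5) = s(p4, p5) := rfl
  intro e he f hf hef
  simp only [Set.mem_insert_iff, Set.mem_singleton_iff] at he hf
  rcases he with rfl | rfl | rfl | rfl <;> rcases hf with rfl | rfl | rfl | rfl <;>
    simp only [e1, e2, e3, e4] at hef <;>
    first
    | rfl
    | exact absurd hef c1
    | exact absurd hef c2
    | exact absurd hef c3
    | exact absurd hef c4
    | exact absurd hef c5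
    | exact absurd hef c6
    | exact absurd hef.symm c1
    | exact absurd hef.symm c2
    | exact absurd hef.symm c3
    | exact absurd hef.symm c4
    | exact absurd hef.symm c5
    | exact absurd hef.symm c6

lemma proper_ne {G : SimpleGraph V} {φ : Sym2 V → ℕ} (hφ : IsProper G φ) {x y z : V}
    (h1 : G.Adj x y) (h2 : G.Adj x z) (hyz : y ≠ z) : φ s(x, y) ≠ φ s(x, z) := by
  apply hφ _ h1 _ h2 _ ⟨x, by simp, by simp⟩
  intro h
  rw [Sym2.eq_iff] at h
  rcases h with ⟨_, h⟩ | ⟨h, h'⟩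
  · exact hyz h
  · exact hyz (h'.trans h)

section types

variable {G : SimpleGraph V} {φ : Sym2 V → ℕ}

lemma nrf {m : ℕ} (f : Fin m → V) (hf : Function.Injective f) (hno : ¬ HasRainbow PK G φ)
    (C : Fin m → Fin m → ℕ) (hC : ∀ i j, C i j = φ s(f i, f j))
    (i0 i1 i2 i3 i4 i5 : Fin m) (hnd : [i0, i1, i2, i3, i4, i5].Nodup)
    (h01 : G.Adj (f i0) (f i1)) (h12 : G.Adj (f i1) (f i2)) (h23 : G.Adj (f i2) (f i3))
    (h45 : G.Adj (f i4) (f i5)) :
    C i0 i1 = C i1 i2 ∨ C i0 i1 = C i2 i3 ∨ C i0 i1 = C i4 i5 ∨ C i1 i2 = C i2 i3 ∨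
      C i1 i2 = C i4 i5 ∨ C i2 i3 = C i4 i5 := by
  simp only [hC]
  apply no_rainbow hno _ h01 h12 h23 h45
  exact hnd.map hf

lemma pnf {m : ℕ} (f : Fin m → V) (hf : Function.Injective f) (hφ : IsProper G φ)
    (C : Fin m → Fin m → ℕ) (hC : ∀ i j, C i j = φ s(f i, f j))
    (i j k : Fin m) (hjk : j ≠ k) (h1 : G.Adj (f i) (f j)) (h2 : G.Adj (f i) (f k)) :
    C i j ≠ C i k := by
  simp only [hC]
  exact proper_ne hφ h1 h2 (hf.ne hjk)

/-- types 1, 3, 5 : vertices `a b c b1 b2 c1 c2 u v` -/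
lemma typeA (hφ : IsProper G φ) (f : Fin 9 → V) (hf : Function.Injective f)
    (h01 : G.Adj (f 0) (f 1)) (h02 : G.Adj (f 0) (f 2)) (h12 : G.Adj (f 1) (f 2))
    (h13 : G.Adj (f 1) (f 3)) (h14 : G.Adj (f 1) (f 4)) (h25 : G.Adj (f 2) (f 5))
    (h26 : G.Adj (f 2) (f 6)) (h78 : G.Adj (f 7) (f 8)) : HasRainbow PK G φ := by
  by_contra hno
  obtain ⟨C, hC⟩ : ∃ C : Fin 9 → Fin 9 → ℕ, ∀ i j, C i j = φ s(f i, f j) := ⟨_, fun _ _ => rfl⟩
  have cs : ∀ i j, C i j = C j i := by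
    intro i j; rw [hC, hC, Sym2.eq_swap]
  have s1 := cs 1 0
  have s2 := cs 2 0
  have s3 := cs 2 1
  have s4 := cs 3 1
  have s5 := cs 4 1
  have s6 := cs 5 2
  have s7 := cs 6 2
  have p := pnf f hf hφ C hC
  have q1 := p 0 1 2 (by decide) h01 h02
  have q2 := p 1 0 2 (by decide) h01.symm h12
  have q3 := p 2 0 1 (by decide) h02.symm h12.symm
  have q4 := p 1 3 0 (by decide) h13 h01.symm
  have q5 := p 1 3 2 (by decide) h13 h12
  have q6 := p 1 4 0 (by decide) h14 h01.symm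
  have q7 := p 1 4 2 (by decide) h14 h12
  have q8 := p 1 3 4 (by decide) h13 h14
  have q9 := p 2 5 0 (by decide) h25 h02.symm
  have q10 := p 2 5 1 (by decide) h25 h12.symm
  have q11 := p 2 6 0 (by decide) h26 h02.symm
  have q12 := p 2 6 1 (by decide) h26 h12.symm
  have q13 := p 2 5 6 (by decide) h25 h26
  have n := nrf f hf hno C hC
  have r1 := n 3 1 0 2 7 8 (by decide) h13.symm h01.symm h02 h78
  have r2 := n 4 1 0 2 7 8 (by decide) h14.symm h01.symm h02 h78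
  have r3 := n 5 2 1 0 7 8 (by decide) h25.symm h12.symm h01.symm h78
  have r4 := n 6 2 1 0 7 8 (by decide) h26.symm h12.symm h01.symm h78
  have r5 := n 3 1 2 0 7 8 (by decide) h13.symm h12 h02.symm h78
  have r6 := n 4 1 2 0 7 8 (by decide) h14.symm h12 h02.symm h78
  have r7 := n 5 2 0 1 7 8 (by decide) h25.symm h02.symm h01 h78
  have r8 := n 6 2 0 1 7 8 (by decide) h26.symm h02.symm h01 h78
  have r9 := n 3 1 2 5 7 8 (by decide) h13.symm h12 h25 h78
  have r10 := n 3 1 2 6 7 8 (by decide) h13.symm h12 h26 h78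
  have r11 := n 4 1 2 5 7 8 (by decide) h14.symm h12 h25 h78
  have r12 := n 4 1 2 6 7 8 (by decide) h14.symm h12 h26 h78
  clear n p cs hC hno hφ h01 h02 h12 h13 h14 h25 h26 h78 hf
  generalize C 0 1 = x01 at *
  generalize C 0 2 = x02 at *
  generalize C 1 2 = x12 at *
  generalize C 1 3 = x13 at *
  generalize C 1 4 = x14 at *
  generalize C 2 5 = x25 at *
  generalize C 2 6 = x26 at *
  generalize C 7 8 = x78 at *
  rw [s1] at *
  grind

/-- type 2 : a third pendant edge at a triangle vertex -/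
lemma typeB (hφ : IsProper G φ) (f : Fin 10 → V) (hf : Function.Injective f)
    (h01 : G.Adj (f 0) (f 1)) (h02 : G.Adj (f 0) (f 2))
    (h12 : G.Adj (f 1) (f 2)) (h03 : G.Adj (f 0) (f 3)) (h04 : G.Adj (f 0) (f 4)) (h15 : G.Adj (f 1) (f 5)) (h16 : G.Adj (f 1) (f 6)) (h27 : G.Adj (f 2) (f 7)) (h28 : G.Adj (f 2) (f 8)) (h09 : G.Adj (f 0) (f 9)) :
    HasRainbow PK G φ := by
  by_contra hno
  obtain ⟨C, hC⟩ : ∃ C : Fin 10 → Fin 10 → ℕ, ∀ i j, C i j = φ s(f i, f j) :=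
    ⟨_, fun _ _ => rfl⟩
  have cs : ∀ i j, C i j = C j i := by
    intro i j; rw [hC, hC, Sym2.eq_swap]
  have s1 := cs 1 0
  have s2 := cs 2 0
  have s3 := cs 2 1
  have s4 := cs 3 0
  have s5 := cs 4 0
  have s6 := cs 5 1
  have s7 := cs 6 1
  have s8 := cs 7 2
  have s9 := cs 8 2
  have s10 := cs 9 0
  have p := pnf f hf hφ C hC
  have q1 := p 0 1 2 (by decide) h01 h02
  have q2 := p 0 1 3 (by decide) h01 h03
  have q3 := p 0 1 4 (by decide) h01 h04
  have q4 := p 0 1 9 (by decide) h01 h09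
  have q5 := p 0 2 3 (by decide) h02 h03
  have q6 := p 0 2 4 (by decide) h02 h04
  have q7 := p 0 2 9 (by decide) h02 h09
  have q8 := p 0 3 4 (by decide) h03 h04
  have q9 := p 0 3 9 (by decide) h03 h09
  have q10 := p 0 4 9 (by decide) h04 h09
  have q11 := p 1 0 2 (by decide) h01.symm h12
  have q12 := p 1 0 5 (by decide) h01.symm h15
  have q13 := p 1 0 6 (by decide) h01.symm h16
  have q14 := p 1 2 5 (by decide) h12 h15
  have q15 := p 1 2 6 (by decide) h12 h16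
  have q16 := p 1 5 6 (by decide) h15 h16
  have q17 := p 2 0 1 (by decide) h02.symm h12.symm
  have q18 := p 2 0 7 (by decide) h02.symm h27
  have q19 := p 2 0 8 (by decide) h02.symm h28
  have q20 := p 2 1 7 (by decide) h12.symm h27
  have q21 := p 2 1 8 (by decide) h12.symm h28
  have q22 := p 2 7 8 (by decide) h27 h28
  have n := nrf f hf hno C hC
  have r1 := n 3 0 1 5 2 7 (by decide) h03.symm h01 h15 h27
  have r2 := n 3 0 1 5 2 8 (by decide) h03.symm h01 h15 h28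
  have r3 := n 3 0 1 6 2 7 (by decide) h03.symm h01 h16 h27
  have r4 := n 3 0 1 6 2 8 (by decide) h03.symm h01 h16 h28
  have r5 := n 4 0 1 5 2 7 (by decide) h04.symm h01 h15 h27
  have r6 := n 4 0 1 5 2 8 (by decide) h04.symm h01 h15 h28
  have r7 := n 4 0 1 6 2 7 (by decide) h04.symm h01 h16 h27
  have r8 := n 4 0 1 6 2 8 (by decide) h04.symm h01 h16 h28
  have r9 := n 9 0 1 5 2 7 (by decide) h09.symm h01 h15 h27
  have r10 := n 9 0 1 5 2 8 (by decide) h09.symm h01 h15 h28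
  have r11 := n 9 0 1 6 2 7 (by decide) h09.symm h01 h16 h27
  have r12 := n 9 0 1 6 2 8 (by decide) h09.symm h01 h16 h28
  clear n p cs hC hno hφ hf h01 h02 h12 h03 h04 h15 h16 h27 h28 h09
  generalize C 0 1 = x01 at *
  generalize C 0 2 = x02 at *
  generalize C 1 2 = x12 at *
  generalize C 0 3 = x03 at *
  generalize C 0 4 = x04 at *
  generalize C 1 5 = x15 at *
  generalize C 1 6 = x16 at *
  generalize C 2 7 = x27 at *
  generalize C 2 8 = x28 at *
  generalize C 0 9 = x09 at *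
  grind

/-- type 4 : triangle vertex joined to a pendant vertex of another triangle vertex -/
lemma typeC (hφ : IsProper G φ) (f : Fin 9 → V) (hf : Function.Injective f)
    (h01 : G.Adj (f 0) (f 1)) (h02 : G.Adj (f 0) (f 2))
    (h12 : G.Adj (f 1) (f 2)) (h03 : G.Adj (f 0) (f 3)) (h04 : G.Adj (f 0) (f 4)) (h15 : G.Adj (f 1) (f 5)) (h16 : G.Adj (f 1) (f 6)) (h27 : G.Adj (f 2) (f 7)) (h28 : G.Adj (f 2) (f 8)) (h05 : G.Adj (f 0) (f 5)) :
    HasRainbow PK G φ := by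
  by_contra hno
  obtain ⟨C, hC⟩ : ∃ C : Fin 9 → Fin 9 → ℕ, ∀ i j, C i j = φ s(f i, f j) :=
    ⟨_, fun _ _ => rfl⟩
  have cs : ∀ i j, C i j = C j i := by
    intro i j; rw [hC, hC, Sym2.eq_swap]
  have s1 := cs 1 0
  have s2 := cs 2 0
  have s3 := cs 2 1
  have s4 := cs 3 0
  have s5 := cs 4 0
  have s6 := cs 5 1
  have s7 := cs 6 1
  have s8 := cs 7 2
  have s9 := cs 8 2
  have s10 := cs 5 0
  have p := pnf f hf hφ C hC
  have q1 := p 0 1 2 (by decide) h01 h02
  have q2 := p 0 1 3 (by decide) h01 h03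
  have q3 := p 0 1 4 (by decide) h01 h04
  have q4 := p 0 1 5 (by decide) h01 h05
  have q5 := p 0 2 3 (by decide) h02 h03
  have q6 := p 0 2 4 (by decide) h02 h04
  have q7 := p 0 2 5 (by decide) h02 h05
  have q8 := p 0 3 4 (by decide) h03 h04
  have q9 := p 0 3 5 (by decide) h03 h05
  have q10 := p 0 4 5 (by decide) h04 h05
  have q11 := p 1 0 2 (by decide) h01.symm h12
  have q12 := p 1 0 5 (by decide) h01.symm h15
  have q13 := p 1 0 6 (by decide) h01.symm h16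
  have q14 := p 1 2 5 (by decide) h12 h15
  have q15 := p 1 2 6 (by decide) h12 h16
  have q16 := p 1 5 6 (by decide) h15 h16
  have q17 := p 2 0 1 (by decide) h02.symm h12.symm
  have q18 := p 2 0 7 (by decide) h02.symm h27
  have q19 := p 2 0 8 (by decide) h02.symm h28
  have q20 := p 2 1 7 (by decide) h12.symm h27
  have q21 := p 2 1 8 (by decide) h12.symm h28
  have q22 := p 2 7 8 (by decide) h27 h28
  have q23 := p 5 0 1 (by decide) h05.symm h15.symm
  have n := nrf f hf hno C hC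
  have r1 := n 3 0 1 6 2 7 (by decide) h03.symm h01 h16 h27
  have r2 := n 3 0 1 6 2 8 (by decide) h03.symm h01 h16 h28
  have r3 := n 4 0 1 6 2 7 (by decide) h04.symm h01 h16 h27
  have r4 := n 4 0 1 6 2 8 (by decide) h04.symm h01 h16 h28
  have r5 := n 5 0 1 6 2 7 (by decide) h05.symm h01 h16 h27
  have r6 := n 5 0 1 6 2 8 (by decide) h05.symm h01 h16 h28
  have r7 := n 3 0 2 7 1 6 (by decide) h03.symm h02 h27 h16
  have r8 := n 3 0 2 8 1 6 (by decide) h03.symm h02 h28 h16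
  have r9 := n 4 0 2 7 1 6 (by decide) h04.symm h02 h27 h16
  have r10 := n 4 0 2 8 1 6 (by decide) h04.symm h02 h28 h16
  have r11 := n 5 0 2 7 1 6 (by decide) h05.symm h02 h27 h16
  have r12 := n 5 0 2 8 1 6 (by decide) h05.symm h02 h28 h16
  clear n p cs hC hno hφ hf h01 h02 h12 h03 h04 h15 h16 h27 h28 h05
  generalize C 0 1 = x01 at *
  generalize C 0 2 = x02 at *
  generalize C 1 2 = x12 at *
  generalize C 0 3 = x03 at *
  generalize C 0 4 = x04 at *
  generalize C 1 5 = x15 at *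
  generalize C 1 6 = x16 at *
  generalize C 2 7 = x27 at *
  generalize C 2 8 = x28 at *
  generalize C 0 5 = x05 at *
  grind

/-- type 6 : pendant vertices of different triangle vertices joined -/
lemma typeD (hφ : IsProper G φ) (f : Fin 9 → V) (hf : Function.Injective f)
    (h01 : G.Adj (f 0) (f 1)) (h02 : G.Adj (f 0) (f 2))
    (h12 : G.Adj (f 1) (f 2)) (h03 : G.Adj (f 0) (f 3)) (h04 : G.Adj (f 0) (f 4)) (h15 : G.Adj (f 1) (f 5)) (h16 : G.Adj (f 1) (f 6)) (h27 : G.Adj (f 2) (f 7)) (h28 : G.Adj (f 2) (f 8)) (h35 : G.Adj (f 3) (f 5)) :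
    HasRainbow PK G φ := by
  by_contra hno
  obtain ⟨C, hC⟩ : ∃ C : Fin 9 → Fin 9 → ℕ, ∀ i j, C i j = φ s(f i, f j) :=
    ⟨_, fun _ _ => rfl⟩
  have cs : ∀ i j, C i j = C j i := by
    intro i j; rw [hC, hC, Sym2.eq_swap]
  have s1 := cs 1 0
  have s2 := cs 2 0
  have s3 := cs 2 1
  have s4 := cs 3 0
  have s5 := cs 4 0
  have s6 := cs 5 1
  have s7 := cs 6 1
  have s8 := cs 7 2
  have s9 := cs 8 2
  have s10 := cs 5 3
  have p := pnf f hf hφ C hC
  have q1 := p 0 1 2 (by decide) h01 h02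
  have q2 := p 0 1 3 (by decide) h01 h03
  have q3 := p 0 1 4 (by decide) h01 h04
  have q4 := p 0 2 3 (by decide) h02 h03
  have q5 := p 0 2 4 (by decide) h02 h04
  have q6 := p 0 3 4 (by decide) h03 h04
  have q7 := p 1 0 2 (by decide) h01.symm h12
  have q8 := p 1 0 5 (by decide) h01.symm h15
  have q9 := p 1 0 6 (by decide) h01.symm h16
  have q10 := p 1 2 5 (by decide) h12 h15
  have q11 := p 1 2 6 (by decide) h12 h16
  have q12 := p 1 5 6 (by decide) h15 h16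
  have q13 := p 2 0 1 (by decide) h02.symm h12.symm
  have q14 := p 2 0 7 (by decide) h02.symm h27
  have q15 := p 2 0 8 (by decide) h02.symm h28
  have q16 := p 2 1 7 (by decide) h12.symm h27
  have q17 := p 2 1 8 (by decide) h12.symm h28
  have q18 := p 2 7 8 (by decide) h27 h28
  have q19 := p 3 0 5 (by decide) h03.symm h35
  have q20 := p 5 1 3 (by decide) h15.symm h35.symm
  have n := nrf f hf hno C hC
  have r1 := n 7 2 0 1 3 5 (by decide) h27.symm h02.symm h01 h35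
  have r2 := n 8 2 0 1 3 5 (by decide) h28.symm h02.symm h01 h35
  have r3 := n 7 2 1 0 3 5 (by decide) h27.symm h12.symm h01.symm h35
  have r4 := n 8 2 1 0 3 5 (by decide) h28.symm h12.symm h01.symm h35
  have r5 := n 4 0 2 7 3 5 (by decide) h04.symm h02 h27 h35
  have r6 := n 4 0 2 8 3 5 (by decide) h04.symm h02 h28 h35
  have r7 := n 6 1 2 7 3 5 (by decide) h16.symm h12 h27 h35
  have r8 := n 6 1 2 8 3 5 (by decide) h16.symm h12 h28 h35
  have r9 := n 4 0 2 1 3 5 (by decide) h04.symm h02 h12.symm h35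
  have r10 := n 0 3 5 1 2 7 (by decide) h03 h35 h15.symm h27
  have r11 := n 0 3 5 1 2 8 (by decide) h03 h35 h15.symm h28
  have r12 := n 6 1 2 7 0 3 (by decide) h16.symm h12 h27 h03
  have r13 := n 6 1 2 8 0 3 (by decide) h16.symm h12 h28 h03
  clear n p cs hC hno hφ hf h01 h02 h12 h03 h04 h15 h16 h27 h28 h35
  generalize C 0 1 = x01 at *
  generalize C 0 2 = x02 at *
  generalize C 1 2 = x12 at *
  generalize C 0 3 = x03 at *
  generalize C 0 4 = x04 at *
  generalize C 1 5 = x15 at *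
  generalize C 1 6 = x16 at *
  generalize C 2 7 = x27 at *
  generalize C 2 8 = x28 at *
  generalize C 3 5 = x35 at *
  grind

end types

section sun

/-- a triangle `0, 3, 6` with two pendant vertices `3i+1`, `3i+2` at each triangle vertex `3i`,
together with isolated vertices -/
def sun (n : ℕ) : SimpleGraph (Fin n) where
  Adj x y := x ≠ y ∧ x.val < 9 ∧ y.val < 9 ∧ ((x.val % 3 = 0 ∧ y.val % 3 = 0) ∨
    (x.val / 3 = y.val / 3 ∧ (x.val % 3 = 0 ∨ y.val % 3 = 0)))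
  symm := ⟨by
    intro x y h
    refine ⟨h.1.symm, h.2.2.1, h.2.1, ?_⟩
    rcases h.2.2.2 with h | h
    · exact Or.inl ⟨h.2, h.1⟩
    · exact Or.inr ⟨h.1.symm, h.2.symm⟩⟩
  loopless := ⟨fun x h => h.1 rfl⟩

lemma sun_adj {n : ℕ} (x y : Fin n) : (sun n).Adj x y ↔ (x.val ≠ y.val ∧ x.val < 9 ∧ y.val < 9 ∧
    ((x.val % 3 = 0 ∧ y.val % 3 = 0) ∨
    (x.val / 3 = y.val / 3 ∧ (x.val % 3 = 0 ∨ y.val % 3 = 0)))) := by
  simp only [sun, ne_eq, Fin.ext_iff]

/-- the colouring without rainbow copies -/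
def col {n : ℕ} : Sym2 (Fin n) → ℕ :=
  Sym2.lift ⟨fun x y => if x.val % 3 = 0 ∧ y.val % 3 = 0 then x.val + y.val
    else x.val % 3 + y.val % 3, by
    intro x y
    by_cases h : x.val % 3 = 0 ∧ y.val % 3 = 0
    · have h' : y.val % 3 = 0 ∧ x.val % 3 = 0 := ⟨h.2, h.1⟩
      simp only [if_pos h, if_pos h', Nat.add_comm]
    · have h' : ¬ (y.val % 3 = 0 ∧ x.val % 3 = 0) := fun h2 => h ⟨h2.2, h2.1⟩
      simp only [if_neg h, if_neg h', Nat.add_comm]⟩

lemma col_mk {n : ℕ} (x y : Fin n) : col s(x, y) = if x.val % 3 = 0 ∧ y.val % 3 = 0 then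
    x.val + y.val else x.val % 3 + y.val % 3 := rfl

lemma sun_proper (n : ℕ) : IsProper (sun n) col := by
  intro e he f hf hef hv
  obtain ⟨v, hv1, hv2⟩ := hv
  obtain ⟨a, rfl⟩ := Sym2.mem_iff_exists.1 hv1
  obtain ⟨b, rfl⟩ := Sym2.mem_iff_exists.1 hv2
  have hab : a.val ≠ b.val := by
    intro h
    apply hef
    rw [Fin.ext h]
  rw [mem_edgeSet, sun_adj] at he hf
  rw [col_mk, col_mk]
  split_ifs <;> omega

lemma four_aux (a b c d : ℕ) (h1 : a % 3 = 0) (h2 : b % 3 = 0) (h3 : c % 3 = 0) (h4 : d % 3 = 0)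
    (b1 : a < 9) (b2 : b < 9) (b3 : c < 9) (b4 : d < 9) (d1 : a ≠ b) (d2 : a ≠ c)
    (d3 : a ≠ d) (d4 : b ≠ c) (d5 : b ≠ d) (d6 : c ≠ d) : False := by omega

lemma col_range {n : ℕ} (x y : Fin n) (h : (sun n).Adj x y)
    (h' : ¬ (x.val % 3 = 0 ∧ y.val % 3 = 0)) : col s(x, y) = 1 ∨ col s(x, y) = 2 := by
  rw [col_mk, if_neg h']
  rw [sun_adj] at h
  omega

/-- three disjoint edges of the sun whose colours are pairwise different do not exist -/
lemma no_three {n : ℕ} (p : Fin 6 → Fin n) (hp : Function.Injective p)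
    (h1 : (sun n).Adj (p 0) (p 1)) (h2 : (sun n).Adj (p 2) (p 3)) (h3 : (sun n).Adj (p 4) (p 5))
    (c1 : col s(p 0, p 1) ≠ col s(p 2, p 3)) (c2 : col s(p 0, p 1) ≠ col s(p 4, p 5))
    (c3 : col s(p 2, p 3) ≠ col s(p 4, p 5)) : False := by
  have hne : ∀ i j : Fin 6, i ≠ j → (p i).val ≠ (p j).val := by
    intro i j hij h
    exact hij (hp (Fin.ext h))
  have tri : ∀ (x y : Fin n), (sun n).Adj x y → x.val % 3 = 0 ∨ y.val % 3 = 0 := by
    intro x y h
    rw [sun_adj] at h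
    omega
  have bd : ∀ (x y : Fin n), (sun n).Adj x y → x.val < 9 ∧ y.val < 9 := by
    intro x y h
    rw [sun_adj] at h
    exact ⟨h.2.1, h.2.2.1⟩
  obtain ⟨b0, b1⟩ := bd _ _ h1
  obtain ⟨b2, b3⟩ := bd _ _ h2
  obtain ⟨b4, b5⟩ := bd _ _ h3
  have m01 := hne 0 1 (by decide)
  have m23 := hne 2 3 (by decide)
  have m45 := hne 4 5 (by decide)
  have A1 : ¬ ((p 0).val % 3 = 0 ∧ (p 1).val % 3 = 0) := by
    rintro ⟨u1, u2⟩
    rcases tri _ _ h2 with t2 | t2 <;> rcases tri _ _ h3 with t3 | t3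
    · exact four_aux _ _ _ _ u1 u2 t2 t3 b0 b1 b2 b4 m01 (hne 0 2 (by decide))
        (hne 0 4 (by decide)) (hne 1 2 (by decide)) (hne 1 4 (by decide)) (hne 2 4 (by decide))
    · exact four_aux _ _ _ _ u1 u2 t2 t3 b0 b1 b2 b5 m01 (hne 0 2 (by decide))
        (hne 0 5 (by decide)) (hne 1 2 (by decide)) (hne 1 5 (by decide)) (hne 2 5 (by decide))
    · exact four_aux _ _ _ _ u1 u2 t2 t3 b0 b1 b3 b4 m01 (hne 0 3 (by decide))
        (hne 0 4 (by decide)) (hne 1 3 (by decide)) (hne 1 4 (by decide)) (hne 3 4 (by decide))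
    · exact four_aux _ _ _ _ u1 u2 t2 t3 b0 b1 b3 b5 m01 (hne 0 3 (by decide))
        (hne 0 5 (by decide)) (hne 1 3 (by decide)) (hne 1 5 (by decide)) (hne 3 5 (by decide))
  have A2 : ¬ ((p 2).val % 3 = 0 ∧ (p 3).val % 3 = 0) := by
    rintro ⟨u1, u2⟩
    rcases tri _ _ h1 with t2 | t2 <;> rcases tri _ _ h3 with t3 | t3
    · exact four_aux _ _ _ _ u1 u2 t2 t3 b2 b3 b0 b4 m23 (hne 2 0 (by decide))
        (hne 2 4 (by decide)) (hne 3 0 (by decide)) (hne 3 4 (by decide)) (hne 0 4 (by decide))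
    · exact four_aux _ _ _ _ u1 u2 t2 t3 b2 b3 b0 b5 m23 (hne 2 0 (by decide))
        (hne 2 5 (by decide)) (hne 3 0 (by decide)) (hne 3 5 (by decide)) (hne 0 5 (by decide))
    · exact four_aux _ _ _ _ u1 u2 t2 t3 b2 b3 b1 b4 m23 (hne 2 1 (by decide))
        (hne 2 4 (by decide)) (hne 3 1 (by decide)) (hne 3 4 (by decide)) (hne 1 4 (by decide))
    · exact four_aux _ _ _ _ u1 u2 t2 t3 b2 b3 b1 b5 m23 (hne 2 1 (by decide))
        (hne 2 5 (by decide)) (hne 3 1 (by decide)) (hne 3 5 (by decide)) (hne 1 5 (by decide))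
  have A3 : ¬ ((p 4).val % 3 = 0 ∧ (p 5).val % 3 = 0) := by
    rintro ⟨u1, u2⟩
    rcases tri _ _ h1 with t2 | t2 <;> rcases tri _ _ h2 with t3 | t3
    · exact four_aux _ _ _ _ u1 u2 t2 t3 b4 b5 b0 b2 m45 (hne 4 0 (by decide))
        (hne 4 2 (by decide)) (hne 5 0 (by decide)) (hne 5 2 (by decide)) (hne 0 2 (by decide))
    · exact four_aux _ _ _ _ u1 u2 t2 t3 b4 b5 b0 b3 m45 (hne 4 0 (by decide))
        (hne 4 3 (by decide)) (hne 5 0 (by decide)) (hne 5 3 (by decide)) (hne 0 3 (by decide))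
    · exact four_aux _ _ _ _ u1 u2 t2 t3 b4 b5 b1 b2 m45 (hne 4 1 (by decide))
        (hne 4 2 (by decide)) (hne 5 1 (by decide)) (hne 5 2 (by decide)) (hne 1 2 (by decide))
    · exact four_aux _ _ _ _ u1 u2 t2 t3 b4 b5 b1 b3 m45 (hne 4 1 (by decide))
        (hne 4 3 (by decide)) (hne 5 1 (by decide)) (hne 5 3 (by decide)) (hne 1 3 (by decide))
  have k1 := col_range _ _ h1 A1
  have k2 := col_range _ _ h2 A2
  have k3 := col_range _ _ h3 A3
  omega

lemma sun_no_rainbow (n : ℕ) : ¬ HasRainbow PK (sun n) col := by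
  rintro ⟨f, hf⟩
  rw [PK_edgeSet] at hf
  have hadj : ∀ i j, s(i, j) ∈ PK.edgeSet → (sun n).Adj (f i) (f j) := by
    intro i j hij
    exact f.toHom.map_adj hij
  rw [PK_edgeSet] at hadj
  have m1 : (s(0, 1) : Sym2 (Fin 6)) ∈
    ({s(0, 1), s(1, 2), s(2, 3), s(4, 5)} : Set (Sym2 (Fin 6))) := by simp
  have m2 : (s(2, 3) : Sym2 (Fin 6)) ∈
    ({s(0, 1), s(1, 2), s(2, 3), s(4, 5)} : Set (Sym2 (Fin 6))) := by simp
  have m3 : (s(4, 5) : Sym2 (Fin 6)) ∈
    ({s(0, 1), s(1, 2), s(2, 3), s(4, 5)} : Set (Sym2 (Fin 6))) := by simp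
  refine no_three f f.injective (hadj 0 1 (by simp))
    (hadj 2 3 (by simp)) (hadj 4 5 (by simp)) ?_ ?_ ?_
  · intro h
    have := hf m1 m2 h
    revert this; decide
  · intro h
    have := hf m1 m3 h
    revert this; decide
  · intro h
    have := hf m2 m3 h
    revert this; decide

lemma sun_card (n : ℕ) (hn : 9 ≤ n) : (sun n).edgeSet.encard ≤ 9 := by
  let v : ∀ k : ℕ, k < 9 → Fin n := fun k hk => ⟨k, by omega⟩
  let F : Fin 9 → Sym2 (Fin n) := ![s(v 0 (by omega), v 3 (by omega)),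
    s(v 0 (by omega), v 6 (by omega)), s(v 3 (by omega), v 6 (by omega)),
    s(v 0 (by omega), v 1 (by omega)), s(v 0 (by omega), v 2 (by omega)),
    s(v 3 (by omega), v 4 (by omega)), s(v 3 (by omega), v 5 (by omega)),
    s(v 6 (by omega), v 7 (by omega)), s(v 6 (by omega), v 8 (by omega))]
  have hsub : (sun n).edgeSet ⊆ Set.range F := by
    intro e he
    induction e with
    | _ x y =>
      rw [mem_edgeSet, sun_adj] at he
      have hdec : ∀ a b : Fin 9, (a.val ≠ b.val ∧ ((a.val % 3 = 0 ∧ b.val % 3 = 0) ∨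
          (a.val / 3 = b.val / 3 ∧ (a.val % 3 = 0 ∨ b.val % 3 = 0)))) →
        (((a.val = 0 ∧ b.val = 3) ∨ (a.val = 3 ∧ b.val = 0)) ∨
        ((a.val = 0 ∧ b.val = 6) ∨ (a.val = 6 ∧ b.val = 0)) ∨
        ((a.val = 3 ∧ b.val = 6) ∨ (a.val = 6 ∧ b.val = 3)) ∨
        ((a.val = 0 ∧ b.val = 1) ∨ (a.val = 1 ∧ b.val = 0)) ∨
        ((a.val = 0 ∧ b.val = 2) ∨ (a.val = 2 ∧ b.val = 0)) ∨
        ((a.val = 3 ∧ b.val = 4) ∨ (a.val = 4 ∧ b.val = 3)) ∨
        ((a.val = 3 ∧ b.val = 5) ∨ (a.val = 5 ∧ b.val = 3)) ∨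
        ((a.val = 6 ∧ b.val = 7) ∨ (a.val = 7 ∧ b.val = 6)) ∨
        ((a.val = 6 ∧ b.val = 8) ∨ (a.val = 8 ∧ b.val = 6))) := by decide
      have h : ((x.val = 0 ∧ y.val = 3) ∨ (x.val = 3 ∧ y.val = 0)) ∨
        ((x.val = 0 ∧ y.val = 6) ∨ (x.val = 6 ∧ y.val = 0)) ∨
        ((x.val = 3 ∧ y.val = 6) ∨ (x.val = 6 ∧ y.val = 3)) ∨
        ((x.val = 0 ∧ y.val = 1) ∨ (x.val = 1 ∧ y.val = 0)) ∨
        ((x.val = 0 ∧ y.val = 2) ∨ (x.val = 2 ∧ y.val = 0)) ∨
        ((x.val = 3 ∧ y.val = 4) ∨ (x.val = 4 ∧ y.val = 3)) ∨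
        ((x.val = 3 ∧ y.val = 5) ∨ (x.val = 5 ∧ y.val = 3)) ∨
        ((x.val = 6 ∧ y.val = 7) ∨ (x.val = 7 ∧ y.val = 6)) ∨
        ((x.val = 6 ∧ y.val = 8) ∨ (x.val = 8 ∧ y.val = 6)) :=
        hdec ⟨x.val, he.2.1⟩ ⟨y.val, he.2.2.1⟩ ⟨he.1, he.2.2.2⟩
      have mk : ∀ (a b : ℕ) (ha : a < 9) (hb : b < 9),
          ((x.val = a ∧ y.val = b) ∨ (x.val = b ∧ y.val = a)) → s(v a ha, v b hb) = s(x, y) := by
        intro a b ha hb h
        rw [Sym2.eq_iff]
        simp only [v, Fin.ext_iff]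
        rcases h with h | h
        · left; omega
        · right; omega
      rcases h with h | h | h | h | h | h | h | h | h
      · exact ⟨0, mk _ _ (by norm_num) (by norm_num) h⟩
      · exact ⟨1, mk _ _ (by norm_num) (by norm_num) h⟩
      · exact ⟨2, mk _ _ (by norm_num) (by norm_num) h⟩
      · exact ⟨3, mk _ _ (by norm_num) (by norm_num) h⟩
      · exact ⟨4, mk _ _ (by norm_num) (by norm_num) h⟩
      · exact ⟨5, mk _ _ (by norm_num) (by norm_num) h⟩
      · exact ⟨6, mk _ _ (by norm_num) (by norm_num) h⟩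
      · exact ⟨7, mk _ _ (by norm_num) (by norm_num) h⟩
      · exact ⟨8, mk _ _ (by norm_num) (by norm_num) h⟩
  calc (sun n).edgeSet.encard ≤ (Set.range F).encard := Set.encard_le_encard hsub
    _ = (F '' Set.univ).encard := by rw [Set.image_univ]
    _ ≤ (Set.univ : Set (Fin 9)).encard := Set.encard_image_le _ _
    _ = 9 := by rw [Set.encard_univ]; simp

end sun

section step

lemma typeA' {V : Type} {G : SimpleGraph V} {φ : Sym2 V → ℕ} (hφ : IsProper G φ)
    (f : Fin 9 → V) (hf : Function.Injective f) (u v : V)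
    (h01 : G.Adj (f 0) (f 1)) (h02 : G.Adj (f 0) (f 2)) (h12 : G.Adj (f 1) (f 2))
    (h15 : G.Adj (f 1) (f 5)) (h16 : G.Adj (f 1) (f 6)) (h27 : G.Adj (f 2) (f 7))
    (h28 : G.Adj (f 2) (f 8)) (huv : G.Adj u v)
    (hu : ∀ q : Fin 9, q ≠ 3 → q ≠ 4 → u ≠ f q) (hv : ∀ q : Fin 9, q ≠ 3 → q ≠ 4 → v ≠ f q) :
    HasRainbow PK G φ := by
  have hinj : Function.Injective ![f 0, f 1, f 2, f 5, f 6, f 7, f 8, u, v] := by
    rw [← List.nodup_ofFn]
    change [f 0, f 1, f 2, f 5, f 6, f 7, f 8, u, v].Nodup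
    have u0 := (hu 0 (by decide) (by decide)).symm
    have u1 := (hu 1 (by decide) (by decide)).symm
    have u2 := (hu 2 (by decide) (by decide)).symm
    have u5 := (hu 5 (by decide) (by decide)).symm
    have u6 := (hu 6 (by decide) (by decide)).symm
    have u7 := (hu 7 (by decide) (by decide)).symm
    have u8 := (hu 8 (by decide) (by decide)).symm
    have v0 := (hv 0 (by decide) (by decide)).symm
    have v1 := (hv 1 (by decide) (by decide)).symm
    have v2 := (hv 2 (by decide) (by decide)).symm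
    have v5 := (hv 5 (by decide) (by decide)).symm
    have v6 := (hv 6 (by decide) (by decide)).symm
    have v7 := (hv 7 (by decide) (by decide)).symm
    have v8 := (hv 8 (by decide) (by decide)).symm
    simp [hf.eq_iff, u0, u1, u2, u5, u6, u7, u8, v0, v1, v2, v5, v6, v7, v8, huv.ne]
  exact typeA hφ ![f 0, f 1, f 2, f 5, f 6, f 7, f 8, u, v] hinj h01 h02 h12 h15 h16 h27 h28 huv

lemma base_exists (n : ℕ) (hn : 9 ≤ n) (i j k s t : ℕ) (hi : i < 3) (hj : j < 3) (hk : k < 3)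
    (hij : i ≠ j) (hik : i ≠ k) (hjk : j ≠ k) (hs : s = 1 ∨ s = 2) (ht : t = 1 ∨ t = 2) :
    ∃ f : Fin 9 → Fin n, Function.Injective f ∧ (f 0).val = 3 * i ∧ (f 1).val = 3 * j ∧
      (f 2).val = 3 * k ∧ (f 3).val = 3 * i + s ∧ (f 4).val = 3 * i + (3 - s) ∧
      (f 5).val = 3 * j + t ∧ (f 6).val = 3 * j + (3 - t) ∧ (f 7).val = 3 * k + 1 ∧
      (f 8).val = 3 * k + 2 := by
  have key : Function.Injective (![3 * i, 3 * j, 3 * k, 3 * i + s, 3 * i + (3 - s), 3 * j + t,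
      3 * j + (3 - t), 3 * k + 1, 3 * k + 2] : Fin 9 → ℕ) ∧
      ∀ q : Fin 9, (![3 * i, 3 * j, 3 * k, 3 * i + s, 3 * i + (3 - s), 3 * j + t,
      3 * j + (3 - t), 3 * k + 1, 3 * k + 2] : Fin 9 → ℕ) q < 9 := by
    interval_cases i <;> interval_cases j <;> first | (exact absurd rfl hij) | skip
    all_goals interval_cases k <;>
      first | (exact absurd rfl hik) | (exact absurd rfl hjk) | skip
    all_goals
      rcases hs with rfl | rfl <;> rcases ht with rfl | rfl <;> decide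
  refine ⟨fun q => ⟨_, (key.2 q).trans_le hn⟩, ?_, rfl, rfl, rfl, rfl, rfl, rfl, rfl, rfl, rfl⟩
  intro x y hxy
  exact key.1 (Fin.mk.inj hxy)

lemma sun_step (n : ℕ) (hn : 9 ≤ n) (u v : Fin n) (huv : u ≠ v) (hna : ¬ (sun n).Adj u v)
    (φ : Sym2 (Fin n) → ℕ) (hφ : IsProper (sun n ⊔ edge u v) φ) :
    HasRainbow PK (sun n ⊔ edge u v) φ := by
  have huv' : u.val ≠ v.val := fun h => huv (Fin.ext h)
  have hE : (sun n ⊔ edge u v).Adj u v := by
    rw [sup_adj, edge_adj]; right; exact ⟨Or.inl ⟨rfl, rfl⟩, huv⟩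
  have hL : ∀ x y : Fin n, (sun n).Adj x y → (sun n ⊔ edge u v).Adj x y :=
    fun x y h => Or.inl h
  rw [sun_adj] at hna
  -- the packaged base
  have pack : ∀ (i j k s t : ℕ), i < 3 → j < 3 → k < 3 → i ≠ j → i ≠ k → j ≠ k →
      (s = 1 ∨ s = 2) → (t = 1 ∨ t = 2) →
      ∃ f : Fin 9 → Fin n, Function.Injective f ∧ (f 0).val = 3 * i ∧ (f 1).val = 3 * j ∧
      (f 2).val = 3 * k ∧ (f 3).val = 3 * i + s ∧ (f 4).val = 3 * i + (3 - s) ∧
      (f 5).val = 3 * j + t ∧ (f 6).val = 3 * j + (3 - t) ∧ (f 7).val = 3 * k + 1 ∧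
      (f 8).val = 3 * k + 2 ∧
      (sun n ⊔ edge u v).Adj (f 0) (f 1) ∧ (sun n ⊔ edge u v).Adj (f 0) (f 2) ∧
      (sun n ⊔ edge u v).Adj (f 1) (f 2) ∧ (sun n ⊔ edge u v).Adj (f 0) (f 3) ∧
      (sun n ⊔ edge u v).Adj (f 0) (f 4) ∧ (sun n ⊔ edge u v).Adj (f 1) (f 5) ∧
      (sun n ⊔ edge u v).Adj (f 1) (f 6) ∧ (sun n ⊔ edge u v).Adj (f 2) (f 7) ∧
      (sun n ⊔ edge u v).Adj (f 2) (f 8) := by
    intro i j k s t hi hj hk hij hik hjk hs ht
    obtain ⟨f, hf, e0, e1, e2, e3, e4, e5, e6, e7, e8⟩ :=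
      base_exists n hn i j k s t hi hj hk hij hik hjk hs ht
    refine ⟨f, hf, e0, e1, e2, e3, e4, e5, e6, e7, e8, hL _ _ ?_, hL _ _ ?_, hL _ _ ?_,
      hL _ _ ?_, hL _ _ ?_, hL _ _ ?_, hL _ _ ?_, hL _ _ ?_, hL _ _ ?_⟩
    · rw [sun_adj, e0, e1]; omega
    · rw [sun_adj, e0, e2]; omega
    · rw [sun_adj, e1, e2]; omega
    · rw [sun_adj, e0, e3]; omega
    · rw [sun_adj, e0, e4]; omega
    · rw [sun_adj, e1, e5]; omega
    · rw [sun_adj, e1, e6]; omega
    · rw [sun_adj, e2, e7]; omega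
    · rw [sun_adj, e2, e8]; omega
  -- type A situation with index i
  have caseA : ∀ i : ℕ, i < 3 → (9 ≤ u.val ∨ (u.val / 3 = i ∧ u.val % 3 ≠ 0)) →
      (9 ≤ v.val ∨ (v.val / 3 = i ∧ v.val % 3 ≠ 0)) →
      HasRainbow PK (sun n ⊔ edge u v) φ := by
    intro i hi hu hv
    obtain ⟨j, k, hj, hk, hij, hik, hjk⟩ : ∃ j k : ℕ, j < 3 ∧ k < 3 ∧ i ≠ j ∧ i ≠ k ∧ j ≠ k := by
      interval_cases i
      · exact ⟨1, 2, by omega, by omega, by omega, by omega, by omega⟩
      · exact ⟨0, 2, by omega, by omega, by omega, by omega, by omega⟩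
      · exact ⟨0, 1, by omega, by omega, by omega, by omega, by omega⟩
    obtain ⟨f, hf, e0, e1, e2, e3, e4, e5, e6, e7, e8, a01, a02, a12, a03, a04, a15, a16, a27,
      a28⟩ := pack i j k 1 1 hi hj hk hij hik hjk (Or.inl rfl) (Or.inl rfl)
    refine typeA' hφ f hf u v a01 a02 a12 a15 a16 a27 a28 hE ?_ ?_
    · intro q q3 q4 h
      have h' := congrArg Fin.val h
      fin_cases q
      · simp only [Fin.zero_eta, e0] at h'; omega
      · simp only [Fin.mk_one, e1] at h'; omega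
      · change u.val = (f 2).val at h'; omega
      · exact q3 rfl
      · exact q4 rfl
      · change u.val = (f 5).val at h'; omega
      · change u.val = (f 6).val at h'; omega
      · change u.val = (f 7).val at h'; omega
      · change u.val = (f 8).val at h'; omega
    · intro q q3 q4 h
      have h' := congrArg Fin.val h
      fin_cases q
      · simp only [Fin.zero_eta, e0] at h'; omega
      · simp only [Fin.mk_one, e1] at h'; omega
      · change v.val = (f 2).val at h'; omega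
      · exact q3 rfl
      · exact q4 rfl
      · change v.val = (f 5).val at h'; omega
      · change v.val = (f 6).val at h'; omega
      · change v.val = (f 7).val at h'; omega
      · change v.val = (f 8).val at h'; omega
  -- type B situation
  have caseB : ∀ x y : Fin n, (sun n ⊔ edge u v).Adj x y → x.val < 9 → x.val % 3 = 0 →
      9 ≤ y.val → HasRainbow PK (sun n ⊔ edge u v) φ := by
    intro x y hxy hx hx3 hy
    obtain ⟨j, k, hj, hk, hij, hik, hjk⟩ : ∃ j k : ℕ, j < 3 ∧ k < 3 ∧ x.val / 3 ≠ j ∧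
        x.val / 3 ≠ k ∧ j ≠ k := by
      have : x.val / 3 < 3 := by omega
      interval_cases x.val / 3
      · exact ⟨1, 2, by omega, by omega, by omega, by omega, by omega⟩
      · exact ⟨0, 2, by omega, by omega, by omega, by omega, by omega⟩
      · exact ⟨0, 1, by omega, by omega, by omega, by omega, by omega⟩
    obtain ⟨f, hf, e0, e1, e2, e3, e4, e5, e6, e7, e8, a01, a02, a12, a03, a04, a15, a16, a27,
      a28⟩ := pack (x.val / 3) j k 1 1 (by omega) hj hk hij hik hjk (Or.inl rfl) (Or.inl rfl)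
    have hx0 : f 0 = x := Fin.ext (by rw [e0]; omega)
    have hlt : ∀ q : Fin 9, (f q).val < 9 := by
      intro q
      fin_cases q
      · change (f 0).val < 9; omega
      · change (f 1).val < 9; omega
      · change (f 2).val < 9; omega
      · change (f 3).val < 9; omega
      · change (f 4).val < 9; omega
      · change (f 5).val < 9; omega
      · change (f 6).val < 9; omega
      · change (f 7).val < 9; omega
      · change (f 8).val < 9; omega
    have hinj : Function.Injective ![f 0, f 1, f 2, f 3, f 4, f 5, f 6, f 7, f 8, y] := by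
      rw [← List.nodup_ofFn]
      change [f 0, f 1, f 2, f 3, f 4, f 5, f 6, f 7, f 8, y].Nodup
      have hy' : ∀ q : Fin 9, f q ≠ y := by
        intro q h
        have := hlt q
        rw [h] at this
        omega
      simp [hf.eq_iff, hy']
    exact typeB hφ ![f 0, f 1, f 2, f 3, f 4, f 5, f 6, f 7, f 8, y] hinj a01 a02 a12 a03 a04
      a15 a16 a27 a28 (by change (sun n ⊔ edge u v).Adj (f 0) y; rw [hx0]; exact hxy)
  -- type C situation
  have caseC : ∀ x y : Fin n, (sun n ⊔ edge u v).Adj x y → x.val < 9 → x.val % 3 = 0 →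
      y.val < 9 → y.val % 3 ≠ 0 → x.val / 3 ≠ y.val / 3 →
      HasRainbow PK (sun n ⊔ edge u v) φ := by
    intro x y hxy hx hx3 hy hy3 hne
    obtain ⟨f, hf, e0, e1, e2, e3, e4, e5, e6, e7, e8, a01, a02, a12, a03, a04, a15, a16, a27,
      a28⟩ := pack (x.val / 3) (y.val / 3) (3 - x.val / 3 - y.val / 3) 1 (y.val % 3)
        (by omega) (by omega) (by omega) (by omega) (by omega) (by omega) (Or.inl rfl) (by omega)
    have hx0 : f 0 = x := Fin.ext (by rw [e0]; omega)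
    have hy5 : f 5 = y := Fin.ext (by rw [e5]; omega)
    exact typeC hφ f hf a01 a02 a12 a03 a04 a15 a16 a27 a28 (by rw [hx0, hy5]; exact hxy)
  by_cases hu9 : u.val < 9
  · by_cases hv9 : v.val < 9
    · by_cases hdiv : u.val / 3 = v.val / 3
      · exact caseA (u.val / 3) (by omega) (by omega) (by omega)
      · by_cases hu3 : u.val % 3 = 0
        · exact caseC u v hE hu9 hu3 hv9 (by omega) hdiv
        · by_cases hv3 : v.val % 3 = 0
          · exact caseC v u hE.symm hv9 hv3 hu9 hu3 (fun h => hdiv h.symm)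
          · obtain ⟨f, hf, e0, e1, e2, e3, e4, e5, e6, e7, e8, a01, a02, a12, a03, a04, a15,
              a16, a27, a28⟩ := pack (u.val / 3) (v.val / 3) (3 - u.val / 3 - v.val / 3)
                (u.val % 3) (v.val % 3) (by omega) (by omega) (by omega) (by omega) (by omega)
                (by omega) (by omega) (by omega)
            have hx0 : f 3 = u := Fin.ext (by rw [e3]; omega)
            have hy5 : f 5 = v := Fin.ext (by rw [e5]; omega)
            exact typeD hφ f hf a01 a02 a12 a03 a04 a15 a16 a27 a28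
              (by rw [hx0, hy5]; exact hE)
    · by_cases hu3 : u.val % 3 = 0
      · exact caseB u v hE hu9 hu3 (by omega)
      · exact caseA (u.val / 3) (by omega) (by omega) (by omega)
  · by_cases hv9 : v.val < 9
    · by_cases hv3 : v.val % 3 = 0
      · exact caseB v u hE.symm hv9 hv3 (by omega)
      · exact caseA (v.val / 3) (by omega) (by omega) (by omega)
    · exact caseA 0 (by omega) (by omega) (by omega)

lemma sun_rainbowSaturated (n : ℕ) (hn : 9 ≤ n) : IsRainbowSaturated PK (sun n) :=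
  ⟨⟨col, sun_proper n, sun_no_rainbow n⟩, fun u v huv hna φ hφ => sun_step n hn u v huv hna φ hφ⟩

end step

section lower

lemma sup_edge_iff {V : Type} {G : SimpleGraph V} {u v x y : V} :
    (G ⊔ edge u v).Adj x y ↔ G.Adj x y ∨ (((x = u ∧ y = v) ∨ (x = v ∧ y = u)) ∧ x ≠ y) := by
  rw [sup_adj, edge_adj]

lemma sat_core {V : Type} (G : SimpleGraph V) (hs : IsSaturated PK G) (a b : V) (hab : a ≠ b)
    (ha : ∀ x, ¬ G.Adj a x) (hb : ∀ x, ¬ G.Adj b x) :
    ∃ g : Fin 5 → V, Function.Injective g ∧ ∀ i j, i ≠ j → G.Adj (g i) (g j) := by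
  classical
  obtain ⟨hfree, hadd⟩ := hs
  have noH : ∀ {p0 p1 p2 p3 p4 p5 : V}, [p0, p1, p2, p3, p4, p5].Nodup →
      G.Adj p0 p1 → G.Adj p1 p2 → G.Adj p2 p3 → G.Adj p4 p5 → False :=
    fun h h1 h2 h3 h4 => hfree (contains_of h h1 h2 h3 h4)
  -- a path on four vertices
  obtain ⟨w, x, y, z, hP, hwx, hxy, hyz⟩ : ∃ w x y z : V, [w, x, y, z].Nodup ∧ G.Adj w x ∧
      G.Adj x y ∧ G.Adj y z := by
    obtain ⟨p, hp, e1, e2, e3, e4⟩ := of_contains (hadd a b hab (ha b))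
    rw [sup_edge_iff] at e1 e2 e3
    have d02 : p 0 ≠ p 2 := hp.ne (by decide)
    have d13 : p 1 ≠ p 3 := hp.ne (by decide)
    have n1 : ∀ q, ¬ G.Adj q a := fun q h => ha q h.symm
    have n2 : ∀ q, ¬ G.Adj q b := fun q h => hb q h.symm
    have k2 : G.Adj (p 1) (p 2) := by
      rcases e2 with h | ⟨⟨h1, h2⟩ | ⟨h1, h2⟩, _⟩
      · exact h
      · exfalso
        rw [h1] at e1
        rcases e1 with h | ⟨⟨h3, h4⟩ | ⟨h3, h4⟩, _⟩
        · exact n1 _ h
        · exact hab h4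
        · exact d02 (h3.trans h2.symm)
      · exfalso
        rw [h1] at e1
        rcases e1 with h | ⟨⟨h3, h4⟩ | ⟨h3, h4⟩, _⟩
        · exact n2 _ h
        · exact d02 (h3.trans h2.symm)
        · exact hab h4.symm
    have k1 : G.Adj (p 0) (p 1) := by
      rcases e1 with h | ⟨⟨h1, h2⟩ | ⟨h1, h2⟩, _⟩
      · exact h
      · rw [h2] at k2; exact absurd k2 (hb _)
      · rw [h2] at k2; exact absurd k2 (ha _)
    have k3 : G.Adj (p 2) (p 3) := by
      rcases e3 with h | ⟨⟨h1, h2⟩ | ⟨h1, h2⟩, _⟩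
      · exact h
      · rw [h1] at k2; exact absurd k2 (n1 _)
      · rw [h1] at k2; exact absurd k2 (n2 _)
    refine ⟨p 0, p 1, p 2, p 3, ?_, k1, k2, k3⟩
    exact (by decide : ([0, 1, 2, 3] : List (Fin 6)).Nodup).map hp
  -- a matching of size two avoiding any given non-isolated vertex
  have M : ∀ v : V, (∃ t, G.Adj v t) → ∃ q1 q2 q3 q4 : V, [q1, q2, q3, q4].Nodup ∧
      v ≠ q1 ∧ v ≠ q2 ∧ v ≠ q3 ∧ v ≠ q4 ∧ G.Adj q1 q2 ∧ G.Adj q3 q4 := by
    rintro v ⟨t, ht⟩
    have hav : a ≠ v := by rintro rfl; exact ha _ ht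
    obtain ⟨p, hp, e1, e2, e3, e4⟩ := of_contains (hadd a v hav (ha v))
    have hnd : ∀ i0 i1 i2 i3 : Fin 6, [i0, i1, i2, i3].Nodup → [p i0, p i1, p i2, p i3].Nodup :=
      fun i0 i1 i2 i3 h => h.map hp
    have n1 : ∀ q, ¬ G.Adj q a := fun q h => ha q h.symm
    rw [sup_edge_iff] at e1 e2 e3 e4
    -- the middle edge is old
    have k2 : G.Adj (p 1) (p 2) := by
      have d02 : p 0 ≠ p 2 := hp.ne (by decide)
      have d13 : p 1 ≠ p 3 := hp.ne (by decide)
      rcases e2 with h | ⟨⟨h1, h2⟩ | ⟨h1, h2⟩, _⟩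
      · exact h
      · exfalso
        rw [h1] at e1
        rcases e1 with h | ⟨⟨h3, h4⟩ | ⟨h3, h4⟩, _⟩
        · exact n1 _ h
        · exact hav h4
        · exact d02 (h3.trans h2.symm)
      · exfalso
        rw [h2] at e3
        rcases e3 with h | ⟨⟨h3, h4⟩ | ⟨h3, h4⟩, _⟩
        · exact ha _ h
        · exact d13 (h1.trans h4.symm)
        · exact hav h3
    -- case on which matching edge is new
    have new_v : ∀ i j : Fin 6, (((p i = a ∧ p j = v) ∨ (p i = v ∧ p j = a)) ∧ p i ≠ p j) →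
        ∀ k : Fin 6, k ≠ i → k ≠ j → p k ≠ a ∧ p k ≠ v := by
      intro i j h k hki hkj
      have h1 := hp.ne hki
      have h2 := hp.ne hkj
      rcases h.1 with ⟨h3, h4⟩ | ⟨h3, h4⟩
      · rw [h3] at h1; rw [h4] at h2; exact ⟨h1, h2⟩
      · rw [h3] at h1; rw [h4] at h2; exact ⟨h2, h1⟩
    have old : ∀ i j : Fin 6, (G.Adj (p i) (p j) ∨
        (((p i = a ∧ p j = v) ∨ (p i = v ∧ p j = a)) ∧ p i ≠ p j)) → p i ≠ a → p i ≠ v →
        G.Adj (p i) (p j) := by
      intro i j h h1 h2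
      rcases h with h | ⟨⟨h3, _⟩ | ⟨h3, _⟩, _⟩
      · exact h
      · exact absurd h3 h1
      · exact absurd h3 h2
    rcases e4 with h4 | h4
    · rcases e1 with h1 | h1
      · rcases e3 with h3 | h3
        · exfalso
          refine noH (p0 := p 0) (p1 := p 1) (p2 := p 2) (p3 := p 3) (p4 := p 4) (p5 := p 5)
            ?_ h1 k2 h3 h4
          exact (by decide : ([0, 1, 2, 3, 4, 5] : List (Fin 6)).Nodup).map hp
        · have c := new_v 2 3 h3
          exact ⟨p 0, p 1, p 4, p 5, hnd _ _ _ _ (by decide),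
            (c 0 (by decide) (by decide)).2.symm, (c 1 (by decide) (by decide)).2.symm,
            (c 4 (by decide) (by decide)).2.symm, (c 5 (by decide) (by decide)).2.symm, h1, h4⟩
      · have c := new_v 0 1 h1
        have h3 := old 2 3 e3 (c 2 (by decide) (by decide)).1 (c 2 (by decide) (by decide)).2
        exact ⟨p 2, p 3, p 4, p 5, hnd _ _ _ _ (by decide),
            (c 2 (by decide) (by decide)).2.symm, (c 3 (by decide) (by decide)).2.symm,
            (c 4 (by decide) (by decide)).2.symm, (c 5 (by decide) (by decide)).2.symm, h3, h4⟩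
    · have c := new_v 4 5 h4
      have h1 := old 0 1 e1 (c 0 (by decide) (by decide)).1 (c 0 (by decide) (by decide)).2
      have h3 := old 2 3 e3 (c 2 (by decide) (by decide)).1 (c 2 (by decide) (by decide)).2
      exact ⟨p 0, p 1, p 2, p 3, hnd _ _ _ _ (by decide),
            (c 0 (by decide) (by decide)).2.symm, (c 1 (by decide) (by decide)).2.symm,
            (c 2 (by decide) (by decide)).2.symm, (c 3 (by decide) (by decide)).2.symm, h1, h3⟩
  have hPP := hP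
  simp only [List.nodup_cons, List.mem_cons, List.not_mem_nil, or_false, not_or,
    List.nodup_nil, and_true, not_false_eq_true] at hPP
  obtain ⟨⟨nwx, nwy, nwz⟩, ⟨nxy, nxz⟩, nyz⟩ := hPP
  -- every edge meets the path
  have meet : ∀ s t : V, G.Adj s t → (s = w ∨ s = x ∨ s = y ∨ s = z) ∨
      (t = w ∨ t = x ∨ t = y ∨ t = z) := by
    intro s t hst
    by_contra hcon
    push Not at hcon
    obtain ⟨⟨s1, s2, s3, s4⟩, t1, t2, t3, t4⟩ := hcon
    refine noH (p0 := w) (p1 := x) (p2 := y) (p3 := z) (p4 := s) (p5 := t) ?_ hwx hxy hyz hst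
    simp [nwx, nwy, nwz, nxy, nxz, nyz, s1.symm, s2.symm, s3.symm, s4.symm, t1.symm, t2.symm,
      t3.symm, t4.symm, hst.ne]
  -- no three disjoint edges
  have consec : ∀ p1 p2 p3 : V, (p1 = w ∨ p1 = x ∨ p1 = y ∨ p1 = z) →
      (p2 = w ∨ p2 = x ∨ p2 = y ∨ p2 = z) → (p3 = w ∨ p3 = x ∨ p3 = y ∨ p3 = z) →
      p1 ≠ p2 → p1 ≠ p3 → p2 ≠ p3 → G.Adj p1 p2 ∨ G.Adj p1 p3 ∨ G.Adj p2 p3 := by
    intro p1 p2 p3 h1 h2 h3 d12 d13 d23
    have s1 := hwx.symm
    have s2 := hxy.symm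
    have s3 := hyz.symm
    rcases h1 with h1 | h1 | h1 | h1 <;> rcases h2 with h2 | h2 | h2 | h2 <;>
      rcases h3 with h3 | h3 | h3 | h3 <;> subst h1 <;>
      first
      | (exact absurd h2.symm d12)
      | (exact absurd h3.symm d13)
      | (exact absurd (h2.trans h3.symm) d23)
      | (subst h2; subst h3; simp only [hwx, hxy, hyz, s1, s2, s3, true_or, or_true])
  have NM : ∀ q1 q2 q3 q4 q5 q6 : V, [q1, q2, q3, q4, q5, q6].Nodup → G.Adj q1 q2 →
      G.Adj q3 q4 → G.Adj q5 q6 → False := by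
    have core : ∀ p1 q1 p2 q2 p3 q3 : V, [p1, q1, p2, q2, p3, q3].Nodup → G.Adj p1 q1 →
      G.Adj p2 q2 → G.Adj p3 q3 → (p1 = w ∨ p1 = x ∨ p1 = y ∨ p1 = z) →
      (p2 = w ∨ p2 = x ∨ p2 = y ∨ p2 = z) → (p3 = w ∨ p3 = x ∨ p3 = y ∨ p3 = z) → False := by
      intro p1 q1 p2 q2 p3 q3 hnd a1 a2 a3 m1 m2 m3
      have hinj := inj_of_nodup hnd
      have nd : ∀ i0 i1 i2 i3 i4 i5 : Fin 6, [i0, i1, i2, i3, i4, i5].Nodup →
        [![p1, q1, p2, q2, p3, q3] i0, ![p1, q1, p2, q2, p3, q3] i1,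
         ![p1, q1, p2, q2, p3, q3] i2, ![p1, q1, p2, q2, p3, q3] i3,
         ![p1, q1, p2, q2, p3, q3] i4, ![p1, q1, p2, q2, p3, q3] i5].Nodup :=
        fun _ _ _ _ _ _ h => h.map hinj
      have d12 : p1 ≠ p2 := hinj.ne (show (0 : Fin 6) ≠ 2 by decide)
      have d13 : p1 ≠ p3 := hinj.ne (show (0 : Fin 6) ≠ 4 by decide)
      have d23 : p2 ≠ p3 := hinj.ne (show (2 : Fin 6) ≠ 4 by decide)
      rcases consec p1 p2 p3 m1 m2 m3 d12 d13 d23 with h | h | h
      · exact noH (nd 1 0 2 3 4 5 (by decide)) a1.symm h a2 a3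
      · exact noH (nd 1 0 4 5 2 3 (by decide)) a1.symm h a3 a2
      · exact noH (nd 3 2 4 5 0 1 (by decide)) a2.symm h a3 a1
    intro q1 q2 q3 q4 q5 q6 hnd a1 a2 a3
    have hinj := inj_of_nodup hnd
    have nd : ∀ i0 i1 i2 i3 i4 i5 : Fin 6, [i0, i1, i2, i3, i4, i5].Nodup →
        [![q1, q2, q3, q4, q5, q6] i0, ![q1, q2, q3, q4, q5, q6] i1,
         ![q1, q2, q3, q4, q5, q6] i2, ![q1, q2, q3, q4, q5, q6] i3,
         ![q1, q2, q3, q4, q5, q6] i4, ![q1, q2, q3, q4, q5, q6] i5].Nodup :=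
        fun _ _ _ _ _ _ h => h.map hinj
    rcases meet _ _ a1 with m1 | m1 <;> rcases meet _ _ a2 with m2 | m2 <;>
      rcases meet _ _ a3 with m3 | m3
    · exact core _ _ _ _ _ _ (nd 0 1 2 3 4 5 (by decide)) a1 a2 a3 m1 m2 m3
    · exact core _ _ _ _ _ _ (nd 0 1 2 3 5 4 (by decide)) a1 a2 a3.symm m1 m2 m3
    · exact core _ _ _ _ _ _ (nd 0 1 3 2 4 5 (by decide)) a1 a2.symm a3 m1 m2 m3
    · exact core _ _ _ _ _ _ (nd 0 1 3 2 5 4 (by decide)) a1 a2.symm a3.symm m1 m2 m3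
    · exact core _ _ _ _ _ _ (nd 1 0 2 3 4 5 (by decide)) a1.symm a2 a3 m1 m2 m3
    · exact core _ _ _ _ _ _ (nd 1 0 2 3 5 4 (by decide)) a1.symm a2 a3.symm m1 m2 m3
    · exact core _ _ _ _ _ _ (nd 1 0 3 2 4 5 (by decide)) a1.symm a2.symm a3 m1 m2 m3
    · exact core _ _ _ _ _ _ (nd 1 0 3 2 5 4 (by decide)) a1.symm a2.symm a3.symm m1 m2 m3
  -- at most one further non-isolated vertex
  have uniq : ∀ u1 u2 : V, ¬ (u1 = w ∨ u1 = x ∨ u1 = y ∨ u1 = z) →
      ¬ (u2 = w ∨ u2 = x ∨ u2 = y ∨ u2 = z) → (∃ t, G.Adj u1 t) → (∃ t, G.Adj u2 t) →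
      u1 = u2 := by
    intro u1 u2 o1 o2 i1 i2
    by_contra hne
    have nb1 : ∀ t, G.Adj u1 t → (t = w ∨ t = x ∨ t = y ∨ t = z) := by
      intro t ht
      rcases meet _ _ ht with h | h
      · exact absurd h o1
      · exact h
    have nb2 : ∀ t, G.Adj u2 t → (t = w ∨ t = x ∨ t = y ∨ t = z) := by
      intro t ht
      rcases meet _ _ ht with h | h
      · exact absurd h o2
      · exact h
    have n12 : ¬ G.Adj u1 u2 := fun h => o2 (nb1 _ h)
    -- matched when avoiding t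
    have mem : ∀ u t q1 q2 q3 q4 : V, G.Adj u t → [q1, q2, q3, q4].Nodup → t ≠ q1 → t ≠ q2 →
        t ≠ q3 → t ≠ q4 → G.Adj q1 q2 → G.Adj q3 q4 → (u = q1 ∨ u = q2 ∨ u = q3 ∨ u = q4) := by
      intro u t q1 q2 q3 q4 hut hnd t1 t2 t3 t4 a1 a2
      by_contra hcon
      push Not at hcon
      obtain ⟨c1, c2, c3, c4⟩ := hcon
      refine NM u t q1 q2 q3 q4 ?_ hut a1 a2
      rw [List.nodup_cons, List.nodup_cons]
      refine ⟨?_, ?_, hnd⟩
      · simp [hut.ne, c1, c2, c3, c4]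
      · simp [t1, t2, t3, t4]
    have g1 : ∀ u t : V, G.Adj u t → ∃ p, G.Adj u p ∧ p ≠ t := by
      intro u t hut
      obtain ⟨q1, q2, q3, q4, hnd, t1, t2, t3, t4, a1, a2⟩ := M t ⟨u, hut.symm⟩
      rcases mem u t q1 q2 q3 q4 hut hnd t1 t2 t3 t4 a1 a2 with h | h | h | h
      · exact ⟨q2, h ▸ a1, t2.symm⟩
      · exact ⟨q1, h ▸ a1.symm, t1.symm⟩
      · exact ⟨q4, h ▸ a2, t4.symm⟩
      · exact ⟨q3, h ▸ a2.symm, t3.symm⟩
    have g2 : ∀ t : V, G.Adj u1 t → G.Adj u2 t → ∃ p q, G.Adj u1 p ∧ G.Adj u2 q ∧ p ≠ q ∧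
        p ≠ t ∧ q ≠ t := by
      intro t h1t h2t
      obtain ⟨q1, q2, q3, q4, hnd, t1, t2, t3, t4, a1, a2⟩ := M t ⟨u1, h1t.symm⟩
      have m1 := mem u1 t q1 q2 q3 q4 h1t hnd t1 t2 t3 t4 a1 a2
      have m2 := mem u2 t q1 q2 q3 q4 h2t hnd t1 t2 t3 t4 a1 a2
      simp only [List.nodup_cons, List.mem_cons, List.not_mem_nil, or_false, not_or,
        List.nodup_nil, and_true, not_false_eq_true] at hnd
      obtain ⟨⟨d12, d13, d14⟩, ⟨d23, d24⟩, d34⟩ := hnd
      rcases m1 with h | h | h | h <;> rcases m2 with h' | h' | h' | h'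
      · exact absurd (h.trans h'.symm) hne
      · exact absurd (h ▸ h' ▸ a1) n12
      · exact ⟨q2, q4, h ▸ a1, h' ▸ a2, d24, t2.symm, t4.symm⟩
      · exact ⟨q2, q3, h ▸ a1, h' ▸ a2.symm, d23, t2.symm, t3.symm⟩
      · exact absurd (h ▸ h' ▸ a1.symm) n12
      · exact absurd (h.trans h'.symm) hne
      · exact ⟨q1, q4, h ▸ a1.symm, h' ▸ a2, d14, t1.symm, t4.symm⟩
      · exact ⟨q1, q3, h ▸ a1.symm, h' ▸ a2.symm, d13, t1.symm, t3.symm⟩
      · exact ⟨q4, q2, h ▸ a2, h' ▸ a1, fun e => d24 e.symm, t4.symm, t2.symm⟩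
      · exact ⟨q4, q1, h ▸ a2, h' ▸ a1.symm, fun e => d14 e.symm, t4.symm, t1.symm⟩
      · exact absurd (h.trans h'.symm) hne
      · exact absurd (h ▸ h' ▸ a2) n12
      · exact ⟨q3, q2, h ▸ a2.symm, h' ▸ a1, fun e => d23 e.symm, t3.symm, t2.symm⟩
      · exact ⟨q3, q1, h ▸ a2.symm, h' ▸ a1.symm, fun e => d13 e.symm, t3.symm, t1.symm⟩
      · exact absurd (h ▸ h' ▸ a2.symm) n12
      · exact absurd (h.trans h'.symm) hne
    -- six distinct vertices
    have hnd6 : [w, x, y, z, u1, u2].Nodup := by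
      push Not at o1 o2
      obtain ⟨s1, s2, s3, s4⟩ := o1
      obtain ⟨t1, t2, t3, t4⟩ := o2
      simp [nwx, nwy, nwz, nxy, nxz, nyz, s1.symm, s2.symm, s3.symm, s4.symm, t1.symm, t2.symm,
        t3.symm, t4.symm, hne]
    have hinj := inj_of_nodup hnd6
    have nd : ∀ i0 i1 i2 i3 i4 i5 : Fin 6, [i0, i1, i2, i3, i4, i5].Nodup →
        [![w, x, y, z, u1, u2] i0, ![w, x, y, z, u1, u2] i1,
         ![w, x, y, z, u1, u2] i2, ![w, x, y, z, u1, u2] i3,
         ![w, x, y, z, u1, u2] i4, ![w, x, y, z, u1, u2] i5].Nodup :=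
        fun _ _ _ _ _ _ h => h.map hinj
    have f1 : ¬ (G.Adj u1 w ∧ G.Adj u2 x) := fun ⟨h1, h2⟩ =>
      noH (nd 4 0 1 5 2 3 (by decide)) h1 hwx h2.symm hyz
    have f2 : ¬ (G.Adj u2 w ∧ G.Adj u1 x) := fun ⟨h1, h2⟩ =>
      noH (nd 5 0 1 4 2 3 (by decide)) h1 hwx h2.symm hyz
    have f3 : ¬ (G.Adj u1 y ∧ G.Adj u2 z) := fun ⟨h1, h2⟩ =>
      noH (nd 4 2 3 5 0 1 (by decide)) h1 hyz h2.symm hwx
    have f4 : ¬ (G.Adj u2 y ∧ G.Adj u1 z) := fun ⟨h1, h2⟩ =>
      noH (nd 5 2 3 4 0 1 (by decide)) h1 hyz h2.symm hwx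
    have f5 : ¬ (G.Adj u1 w ∧ G.Adj u2 z) := fun ⟨h1, h2⟩ =>
      noH (nd 4 0 1 2 3 5 (by decide)) h1 hwx hxy h2.symm
    have f6 : ¬ (G.Adj u2 w ∧ G.Adj u1 z) := fun ⟨h1, h2⟩ =>
      noH (nd 5 0 1 2 3 4 (by decide)) h1 hwx hxy h2.symm
    have G1 : ∀ u t : V, (∀ t, G.Adj u t → (t = w ∨ t = x ∨ t = y ∨ t = z)) → G.Adj u t →
        ∃ p, G.Adj u p ∧ p ≠ t ∧ (p = w ∨ p = x ∨ p = y ∨ p = z) := by
      intro u t hu hut
      obtain ⟨p, hp, hpt⟩ := g1 u t hut
      exact ⟨p, hp, hpt, hu p hp⟩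
    have G2 : ∀ t : V, G.Adj u1 t → G.Adj u2 t → ∃ p q, G.Adj u1 p ∧ G.Adj u2 q ∧ p ≠ q ∧
        p ≠ t ∧ q ≠ t ∧ (p = w ∨ p = x ∨ p = y ∨ p = z) ∧ (q = w ∨ q = x ∨ q = y ∨ q = z) := by
      intro t h1 h2
      obtain ⟨p, q, hp, hq, hpq, hpt, hqt⟩ := g2 t h1 h2
      exact ⟨p, q, hp, hq, hpq, hpt, hqt, nb1 p hp, nb2 q hq⟩
    have e1w : G.Adj u1 w → G.Adj u1 x ∨ G.Adj u1 y ∨ G.Adj u1 z := by
      intro h
      obtain ⟨p, hp, hpt, rfl | rfl | rfl | rfl⟩ := G1 u1 w nb1 h <;>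
        first | exact absurd rfl hpt | exact Or.inl hp | exact Or.inr (Or.inl hp) | exact Or.inr (Or.inr hp)
    have e1z : G.Adj u1 z → G.Adj u1 x ∨ G.Adj u1 y ∨ G.Adj u1 w := by
      intro h
      obtain ⟨p, hp, hpt, rfl | rfl | rfl | rfl⟩ := G1 u1 z nb1 h <;>
        first | exact absurd rfl hpt | exact Or.inl hp | exact Or.inr (Or.inl hp) | exact Or.inr (Or.inr hp)
    have e1x : G.Adj u1 x → G.Adj u1 w ∨ G.Adj u1 y ∨ G.Adj u1 z := by
      intro h
      obtain ⟨p, hp, hpt, rfl | rfl | rfl | rfl⟩ := G1 u1 x nb1 h <;>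
        first | exact absurd rfl hpt | exact Or.inl hp | exact Or.inr (Or.inl hp) | exact Or.inr (Or.inr hp)
    have e1y : G.Adj u1 y → G.Adj u1 w ∨ G.Adj u1 x ∨ G.Adj u1 z := by
      intro h
      obtain ⟨p, hp, hpt, rfl | rfl | rfl | rfl⟩ := G1 u1 y nb1 h <;>
        first | exact absurd rfl hpt | exact Or.inl hp | exact Or.inr (Or.inl hp) | exact Or.inr (Or.inr hp)
    have e2w : G.Adj u2 w → G.Adj u2 x ∨ G.Adj u2 y ∨ G.Adj u2 z := by
      intro h
      obtain ⟨p, hp, hpt, rfl | rfl | rfl | rfl⟩ := G1 u2 w nb2 h <;>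
        first | exact absurd rfl hpt | exact Or.inl hp | exact Or.inr (Or.inl hp) | exact Or.inr (Or.inr hp)
    have e2z : G.Adj u2 z → G.Adj u2 x ∨ G.Adj u2 y ∨ G.Adj u2 w := by
      intro h
      obtain ⟨p, hp, hpt, rfl | rfl | rfl | rfl⟩ := G1 u2 z nb2 h <;>
        first | exact absurd rfl hpt | exact Or.inl hp | exact Or.inr (Or.inl hp) | exact Or.inr (Or.inr hp)
    have e2x : G.Adj u2 x → G.Adj u2 w ∨ G.Adj u2 y ∨ G.Adj u2 z := by
      intro h
      obtain ⟨p, hp, hpt, rfl | rfl | rfl | rfl⟩ := G1 u2 x nb2 h <;>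
        first | exact absurd rfl hpt | exact Or.inl hp | exact Or.inr (Or.inl hp) | exact Or.inr (Or.inr hp)
    have e2y : G.Adj u2 y → G.Adj u2 w ∨ G.Adj u2 x ∨ G.Adj u2 z := by
      intro h
      obtain ⟨p, hp, hpt, rfl | rfl | rfl | rfl⟩ := G1 u2 y nb2 h <;>
        first | exact absurd rfl hpt | exact Or.inl hp | exact Or.inr (Or.inl hp) | exact Or.inr (Or.inr hp)
    have sw : G.Adj u1 w → G.Adj u2 w → (G.Adj u1 x ∧ (G.Adj u2 y ∨ G.Adj u2 z)) ∨
        (G.Adj u1 y ∧ (G.Adj u2 x ∨ G.Adj u2 z)) ∨ (G.Adj u1 z ∧ (G.Adj u2 x ∨ G.Adj u2 y)) := by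
      intro h1 h2
      obtain ⟨p, q, hp, hq, hpq, hpt, hqt, mp, mq⟩ := G2 w h1 h2
      rcases mp with rfl | rfl | rfl | rfl <;> rcases mq with rfl | rfl | rfl | rfl <;>
        first
        | exact absurd rfl hpq
        | exact absurd rfl hpt
        | exact absurd rfl hqt
        | exact Or.inl ⟨hp, Or.inl hq⟩
        | exact Or.inl ⟨hp, Or.inr hq⟩
        | exact Or.inr (Or.inl ⟨hp, Or.inl hq⟩)
        | exact Or.inr (Or.inl ⟨hp, Or.inr hq⟩)
        | exact Or.inr (Or.inr ⟨hp, Or.inl hq⟩)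
        | exact Or.inr (Or.inr ⟨hp, Or.inr hq⟩)
    have sz : G.Adj u1 z → G.Adj u2 z → (G.Adj u1 x ∧ (G.Adj u2 y ∨ G.Adj u2 w)) ∨
        (G.Adj u1 y ∧ (G.Adj u2 x ∨ G.Adj u2 w)) ∨ (G.Adj u1 w ∧ (G.Adj u2 x ∨ G.Adj u2 y)) := by
      intro h1 h2
      obtain ⟨p, q, hp, hq, hpq, hpt, hqt, mp, mq⟩ := G2 z h1 h2
      rcases mp with rfl | rfl | rfl | rfl <;> rcases mq with rfl | rfl | rfl | rfl <;>
        first
        | exact absurd rfl hpq
        | exact absurd rfl hpt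
        | exact absurd rfl hqt
        | exact Or.inl ⟨hp, Or.inl hq⟩
        | exact Or.inl ⟨hp, Or.inr hq⟩
        | exact Or.inr (Or.inl ⟨hp, Or.inl hq⟩)
        | exact Or.inr (Or.inl ⟨hp, Or.inr hq⟩)
        | exact Or.inr (Or.inr ⟨hp, Or.inl hq⟩)
        | exact Or.inr (Or.inr ⟨hp, Or.inr hq⟩)
    have sx : G.Adj u1 x → G.Adj u2 x → (G.Adj u1 w ∧ (G.Adj u2 y ∨ G.Adj u2 z)) ∨
        (G.Adj u1 y ∧ (G.Adj u2 w ∨ G.Adj u2 z)) ∨ (G.Adj u1 z ∧ (G.Adj u2 w ∨ G.Adj u2 y)) := by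
      intro h1 h2
      obtain ⟨p, q, hp, hq, hpq, hpt, hqt, mp, mq⟩ := G2 x h1 h2
      rcases mp with rfl | rfl | rfl | rfl <;> rcases mq with rfl | rfl | rfl | rfl <;>
        first
        | exact absurd rfl hpq
        | exact absurd rfl hpt
        | exact absurd rfl hqt
        | exact Or.inl ⟨hp, Or.inl hq⟩
        | exact Or.inl ⟨hp, Or.inr hq⟩
        | exact Or.inr (Or.inl ⟨hp, Or.inl hq⟩)
        | exact Or.inr (Or.inl ⟨hp, Or.inr hq⟩)
        | exact Or.inr (Or.inr ⟨hp, Or.inl hq⟩)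
        | exact Or.inr (Or.inr ⟨hp, Or.inr hq⟩)
    have a1 : G.Adj u1 w ∨ G.Adj u1 x ∨ G.Adj u1 y ∨ G.Adj u1 z := by
      obtain ⟨t, ht⟩ := i1
      rcases nb1 t ht with rfl | rfl | rfl | rfl
      · exact Or.inl ht
      · exact Or.inr (Or.inl ht)
      · exact Or.inr (Or.inr (Or.inl ht))
      · exact Or.inr (Or.inr (Or.inr ht))
    have a2 : G.Adj u2 w ∨ G.Adj u2 x ∨ G.Adj u2 y ∨ G.Adj u2 z := by
      obtain ⟨t, ht⟩ := i2
      rcases nb2 t ht with rfl | rfl | rfl | rfl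
      · exact Or.inl ht
      · exact Or.inr (Or.inl ht)
      · exact Or.inr (Or.inr (Or.inl ht))
      · exact Or.inr (Or.inr (Or.inr ht))
    clear G1 G2 g1 g2 mem nb1 nb2 hnd6 hinj nd NM consec meet M noH hadd hfree
    generalize G.Adj u1 w = W1 at *
    generalize G.Adj u1 x = X1 at *
    generalize G.Adj u1 y = Y1 at *
    generalize G.Adj u1 z = Z1 at *
    generalize G.Adj u2 w = W2 at *
    generalize G.Adj u2 x = X2 at *
    generalize G.Adj u2 y = Y2 at *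
    generalize G.Adj u2 z = Z2 at *
    clear hwx hxy hyz n12 i1 i2
    grind
  -- counting
  have small : ∀ (S : Finset V), S.card ≤ 5 → ∀ p : Fin 6 → V, Function.Injective p →
      (∀ i, p i ∈ S) → False := by
    intro S hS p hp hmem
    have h1 : (Finset.univ.image p).card = 6 := by
      rw [Finset.card_image_of_injective _ hp]; simp
    have h2 : (Finset.univ.image p) ⊆ S := by
      intro v hv
      rw [Finset.mem_image] at hv
      obtain ⟨i, _, rfl⟩ := hv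
      exact hmem i
    have := Finset.card_le_card h2
    omega
  have allni : ∀ s t : V, s ≠ t → ¬ G.Adj s t → ∃ p : Fin 6 → V, Function.Injective p ∧
      ∀ i, (∃ r, G.Adj (p i) r) ∨ p i = s ∨ p i = t := by
    intro s t hst hna
    obtain ⟨p, hp, e1, e2, e3, e4⟩ := of_contains (hadd s t hst hna)
    refine ⟨p, hp, ?_⟩
    have L : ∀ i j : Fin 6, (G ⊔ edge s t).Adj (p i) (p j) → (∃ r, G.Adj (p i) r) ∨ p i = s ∨
        p i = t := by
      intro i j h
      rw [sup_edge_iff] at h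
      rcases h with h | ⟨⟨h, _⟩ | ⟨h, _⟩, _⟩
      · exact Or.inl ⟨_, h⟩
      · exact Or.inr (Or.inl h)
      · exact Or.inr (Or.inr h)
    intro i
    fin_cases i
    · exact L 0 1 e1
    · exact L 1 0 e1.symm
    · exact L 2 1 e2.symm
    · exact L 3 2 e3.symm
    · exact L 4 5 e4
    · exact L 5 4 e4.symm
  have haw : a ≠ w := by rintro rfl; exact ha _ hwx
  obtain ⟨u, hu, hui⟩ : ∃ u, ¬ (u = w ∨ u = x ∨ u = y ∨ u = z) ∧ ∃ t, G.Adj u t := by
    by_contra hcon
    push Not at hcon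
    obtain ⟨p, hp, hpi⟩ := allni a w haw (ha w)
    refine small {a, w, x, y, z} Finset.card_le_five p hp ?_
    intro i
    simp only [Finset.mem_insert, Finset.mem_singleton]
    rcases hpi i with h | h | h
    · right
      by_contra hc
      obtain ⟨t, ht⟩ := h
      exact hcon (p i) (by tauto) t ht
    · left; exact h
    · right; left; exact h
  have hN : ∀ v, (∃ t, G.Adj v t) → v ∈ ({w, x, y, z, u} : Finset V) := by
    intro v hv
    simp only [Finset.mem_insert, Finset.mem_singleton]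
    by_cases h : v = w ∨ v = x ∨ v = y ∨ v = z
    · tauto
    · have := uniq v u h hu hv hui
      tauto
  have hclq : ∀ s t : V, s ∈ ({w, x, y, z, u} : Finset V) → t ∈ ({w, x, y, z, u} : Finset V) →
      s ≠ t → G.Adj s t := by
    intro s t hs ht hst
    by_contra hna
    obtain ⟨p, hp, hpi⟩ := allni s t hst hna
    refine small {w, x, y, z, u} Finset.card_le_five p hp ?_
    intro i
    rcases hpi i with h | h | h
    · exact hN _ h
    · rw [h]; exact hs
    · rw [h]; exact ht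
  push Not at hu
  obtain ⟨s1, s2, s3, s4⟩ := hu
  have hginj : Function.Injective ![w, x, y, z, u] := by
    rw [← List.nodup_ofFn]
    change [w, x, y, z, u].Nodup
    simp [nwx, nwy, nwz, nxy, nxz, nyz, s1.symm, s2.symm, s3.symm, s4.symm]
  refine ⟨![w, x, y, z, u], hginj, ?_⟩
  intro i j hij
  apply hclq
  · fin_cases i <;> simp
  · fin_cases j <;> simp
  · exact hginj.ne hij

end lower

section final

lemma ten_le {V : Type} (G : SimpleGraph V) (g : Fin 5 → V) (hg : Function.Injective g)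
    (hadj : ∀ i j, i ≠ j → G.Adj (g i) (g j)) : 10 ≤ G.edgeSet.encard := by
  have h1 : ((⊤ : SimpleGraph (Fin 5)).edgeSet).encard = 10 := by
    rw [← coe_edgeFinset, Set.encard_coe_eq_coe_finsetCard,
      SimpleGraph.card_edgeFinset_top_eq_card_choose_two]
    decide
  rw [← h1, ← (Sym2.map.injective hg).encard_image]
  apply Set.encard_le_encard
  rintro e ⟨e', he', rfl⟩
  induction e' with
  | _ i j =>
    rw [mem_edgeSet, top_adj] at he'
    exact hadj i j he'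

lemma two_isolated {n : ℕ} (hn : 20 ≤ n) (G : SimpleGraph (Fin n))
    (h : G.edgeSet.encard < 10) : ∃ a b : Fin n, a ≠ b ∧ (∀ x, ¬ G.Adj a x) ∧
      (∀ x, ¬ G.Adj b x) := by
  classical
  have hE : G.edgeFinset.card ≤ 9 := by
    have h1 : ((G.edgeFinset.card : ℕ) : ℕ∞) < 10 := by
      rw [← Set.encard_coe_eq_coe_finsetCard, coe_edgeFinset]
      exact h
    have h2 : G.edgeFinset.card < 10 := by exact_mod_cast h1
    omega
  have hsum := G.sum_degrees_eq_twice_card_edges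
  set N : Finset (Fin n) := Finset.univ.filter (fun v => 1 ≤ G.degree v) with hN
  have hNc : N.card ≤ 18 := by
    calc N.card = ∑ v ∈ N, 1 := by simp
      _ ≤ ∑ v ∈ N, G.degree v := Finset.sum_le_sum (fun v hv => (Finset.mem_filter.1 hv).2)
      _ ≤ ∑ v, G.degree v := Finset.sum_le_sum_of_subset (Finset.subset_univ _)
      _ ≤ 18 := by rw [hsum]; omega
  have hc : 1 < (Nᶜ).card := by
    rw [Finset.card_compl, Fintype.card_fin]
    omega
  obtain ⟨a, b, ha, hb, hab⟩ := Finset.one_lt_card_iff.1 hc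
  have iso : ∀ v, v ∈ Nᶜ → ∀ x, ¬ G.Adj v x := by
    intro v hv x hvx
    rw [Finset.mem_compl, hN, Finset.mem_filter] at hv
    apply hv
    refine ⟨Finset.mem_univ _, ?_⟩
    have : x ∈ G.neighborFinset v := by rw [mem_neighborFinset]; exact hvx
    rw [← card_neighborFinset_eq_degree]
    exact Finset.card_pos.2 ⟨x, this⟩
  exact ⟨a, b, hab, iso a ha, iso b hb⟩

/-- the complete graph on `0, …, 4` together with isolated vertices -/
def kfive (n : ℕ) : SimpleGraph (Fin n) where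
  Adj x y := x ≠ y ∧ x.val < 5 ∧ y.val < 5
  symm := ⟨fun x y h => ⟨h.1.symm, h.2.2, h.2.1⟩⟩
  loopless := ⟨fun x h => h.1 rfl⟩

lemma kfive_adj {n : ℕ} (x y : Fin n) : (kfive n).Adj x y ↔
    (x.val ≠ y.val ∧ x.val < 5 ∧ y.val < 5) := by
  simp only [kfive, ne_eq, Fin.ext_iff]

lemma kfive_sat {n : ℕ} (hn : 6 ≤ n) : IsSaturated PK (kfive n) := by
  constructor
  · intro h
    obtain ⟨p, hp, e1, e2, e3, e4⟩ := of_contains h
    rw [kfive_adj] at e1 e2 e3 e4
    have hlt : ∀ i, (p i).val < 5 := by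
      intro i
      fin_cases i
      · exact e1.2.1
      · exact e1.2.2
      · exact e2.2.2
      · exact e3.2.2
      · exact e4.2.1
      · exact e4.2.2
    have hinj : Function.Injective (fun i : Fin 6 => (⟨(p i).val, hlt i⟩ : Fin 5)) := by
      intro i j hij
      exact hp (Fin.ext (Fin.mk.inj hij))
    have := Fintype.card_le_of_injective _ hinj
    simp at this
  · intro u v huv hna
    rw [kfive_adj] at hna
    have huv' : u.val ≠ v.val := fun h => huv (Fin.ext h)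
    obtain ⟨c, hc5, hcu, hcv⟩ : ∃ c : ℕ, c < 5 ∧ (u.val < 5 → u.val = c) ∧
        (v.val < 5 → v.val = c) := by
      by_cases h1 : u.val < 5
      · exact ⟨u.val, h1, fun _ => rfl, fun h2 => by omega⟩
      · by_cases h2 : v.val < 5
        · exact ⟨v.val, h2, fun h => absurd h h1, fun _ => rfl⟩
        · exact ⟨0, by omega, fun h => absurd h h1, fun h => absurd h h2⟩
    have mk : ∀ k : ℕ, k < 5 → k < n := fun k hk => by omega
    let q : ℕ → Fin n := fun k => ⟨(c + k) % 5, mk _ (Nat.mod_lt _ (by norm_num))⟩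
    have qv : ∀ k, (q k).val = (c + k) % 5 := fun k => rfl
    have A : ∀ i j : ℕ, (q i).val ≠ (q j).val → (kfive n ⊔ edge u v).Adj (q i) (q j) := by
      intro i j hij
      left
      rw [kfive_adj]
      refine ⟨hij, ?_, ?_⟩ <;> rw [qv] <;> exact Nat.mod_lt _ (by norm_num)
    refine contains_of (p0 := q 1) (p1 := q 2) (p2 := q 3) (p3 := q 4) (p4 := u) (p5 := v) ?_
      (A 1 2 (by rw [qv, qv]; omega)) (A 2 3 (by rw [qv, qv]; omega))
      (A 3 4 (by rw [qv, qv]; omega)) ?_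
    · have d12 : q 1 ≠ q 2 := fun h => by have := congrArg Fin.val h; rw [qv, qv] at this; omega
      have d13 : q 1 ≠ q 3 := fun h => by have := congrArg Fin.val h; rw [qv, qv] at this; omega
      have d14 : q 1 ≠ q 4 := fun h => by have := congrArg Fin.val h; rw [qv, qv] at this; omega
      have d23 : q 2 ≠ q 3 := fun h => by have := congrArg Fin.val h; rw [qv, qv] at this; omega
      have d24 : q 2 ≠ q 4 := fun h => by have := congrArg Fin.val h; rw [qv, qv] at this; omega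
      have d34 : q 3 ≠ q 4 := fun h => by have := congrArg Fin.val h; rw [qv, qv] at this; omega
      have du : ∀ k : ℕ, 1 ≤ k → k ≤ 4 → q k ≠ u := by
        intro k h1 h2 h
        have := congrArg Fin.val h
        rw [qv] at this
        omega
      have dv : ∀ k : ℕ, 1 ≤ k → k ≤ 4 → q k ≠ v := by
        intro k h1 h2 h
        have := congrArg Fin.val h
        rw [qv] at this
        omega
      simp [d12, d13, d14, d23, d24, d34, huv, du 1 (by norm_num) (by norm_num),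
        du 2 (by norm_num) (by norm_num), du 3 (by norm_num) (by norm_num),
        du 4 (by norm_num) (by norm_num), dv 1 (by norm_num) (by norm_num),
        dv 2 (by norm_num) (by norm_num), dv 3 (by norm_num) (by norm_num),
        dv 4 (by norm_num) (by norm_num)]
    · rw [sup_edge_iff]
      exact Or.inr ⟨Or.inl ⟨rfl, rfl⟩, huv⟩

lemma kfive_card {n : ℕ} (hn : 5 ≤ n) : (kfive n).edgeSet.encard ≤ 10 := by
  have h1 : ((⊤ : SimpleGraph (Fin 5)).edgeSet).encard = 10 := by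
    rw [← coe_edgeFinset, Set.encard_coe_eq_coe_finsetCard,
      SimpleGraph.card_edgeFinset_top_eq_card_choose_two]
    decide
  rw [← h1]
  refine le_trans (Set.encard_le_encard (t := (Sym2.map (Fin.castLE hn)) ''
    (⊤ : SimpleGraph (Fin 5)).edgeSet) ?_) (Set.encard_image_le _ _)
  intro e he
  induction e with
  | _ x y =>
    rw [mem_edgeSet, kfive_adj] at he
    refine ⟨s(⟨x.val, he.2.1⟩, ⟨y.val, he.2.2⟩), ?_, ?_⟩
    · rw [mem_edgeSet, top_adj]
      intro h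
      exact he.1 (Fin.mk.inj h)
    · rfl

/-- For the disjoint union `H` of a path on four vertices and a single edge and for every
`n ≥ 20`, the rainbow saturation number is at most `9` while the saturation number is `10`. -/
theorem result : PK.edgeSet.Nonempty ∧
    ∀ n : ℕ, 20 ≤ n → satStar n PK ≤ 9 ∧ sat n PK = 10 ∧ satStar n PK < sat n PK := by
  refine ⟨⟨s(0, 1), by rw [PK_edgeSet]; simp⟩, ?_⟩
  intro n hn
  have h1 : satStar n PK ≤ 9 := by
    refine le_trans (sInf_le ⟨sun n, sun_rainbowSaturated n (by omega), rfl⟩) ?_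
    exact sun_card n (by omega)
  have h2 : 10 ≤ sat n PK := by
    apply le_sInf
    rintro m ⟨G, hG, rfl⟩
    by_contra hlt
    rw [not_le] at hlt
    obtain ⟨a, b, hab, ha, hb⟩ := two_isolated hn G hlt
    obtain ⟨g, hg, hadj⟩ := sat_core G hG a b hab ha hb
    exact absurd (ten_le G g hg hadj) (not_le.2 hlt)
  have h3 : sat n PK ≤ 10 := by
    refine le_trans (sInf_le ⟨kfive n, kfive_sat (by omega), rfl⟩) ?_
    exact kfive_card (by omega)
  refine ⟨h1, le_antisymm h3 h2, ?_⟩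
  refine lt_of_le_of_lt h1 (lt_of_lt_of_le ?_ h2)
  norm_num

end final

end Pool.Agent.Results.MP_e87155_co.RainbowBelowSat
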